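import Pool.Agent.H571R3.KSym

set_option autoImplicit false

namespace Pool.Agent.H571R3
namespace AUT885

/-- The map of the glued complex induced by a permutation preserving `K`, possibly swapping the
two copies. -/
noncomputable def mapPP (g : Equiv.Perm (Fin 13)) (fl : Bool)
    (hg : ∀ s : Finset (Fin 13), s.map g.toEmbedding ∈ KK ↔ s ∈ KK) (p : PP KK) : PP KK :=
  open Classical in
  ⟨(if p.1.2 ∈ KK then false else xor fl p.1.1, p.1.2.map g.toEmbedding), by
    refine ⟨p.2.1.map, ?_⟩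
    intro h
    have h' : p.1.2 ∈ KK := (hg _).mp h
    simp only [h', if_true]⟩

theorem mapPP_snd (g : Equiv.Perm (Fin 13)) (fl : Bool)
    (hg : ∀ s : Finset (Fin 13), s.map g.toEmbedding ∈ KK ↔ s ∈ KK) (p : PP KK) :
    (mapPP g fl hg p).1.2 = p.1.2.map g.toEmbedding := rfl

theorem mapPP_fst_of_mem (g : Equiv.Perm (Fin 13)) (fl : Bool)
    (hg : ∀ s : Finset (Fin 13), s.map g.toEmbedding ∈ KK ↔ s ∈ KK) (p : PP KK)
    (h : p.1.2 ∈ KK) : (mapPP g fl hg p).1.1 = false := by
  classical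
  show (if p.1.2 ∈ KK then false else xor fl p.1.1) = false
  rw [if_pos h]

theorem mapPP_fst_of_not_mem (g : Equiv.Perm (Fin 13)) (fl : Bool)
    (hg : ∀ s : Finset (Fin 13), s.map g.toEmbedding ∈ KK ↔ s ∈ KK) (p : PP KK)
    (h : p.1.2 ∉ KK) : (mapPP g fl hg p).1.1 = xor fl p.1.1 := by
  classical
  show (if p.1.2 ∈ KK then false else xor fl p.1.1) = _
  rw [if_neg h]

theorem hg_symm (g : Equiv.Perm (Fin 13))
    (hg : ∀ s : Finset (Fin 13), s.map g.toEmbedding ∈ KK ↔ s ∈ KK) :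
    ∀ s : Finset (Fin 13), s.map g.symm.toEmbedding ∈ KK ↔ s ∈ KK := by
  intro s
  have h := hg (s.map g.symm.toEmbedding)
  have e : (s.map g.symm.toEmbedding).map g.toEmbedding = s := by
    ext x
    simp [Finset.mem_map]
  rw [e] at h
  exact h.symm

theorem map_symm_map (g : Equiv.Perm (Fin 13)) (s : Finset (Fin 13)) :
    (s.map g.toEmbedding).map g.symm.toEmbedding = s := by
  ext x
  simp [Finset.mem_map]

theorem map_map_symm (g : Equiv.Perm (Fin 13)) (s : Finset (Fin 13)) :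
    (s.map g.symm.toEmbedding).map g.toEmbedding = s := by
  ext x
  simp [Finset.mem_map]

theorem mapPP_left (g : Equiv.Perm (Fin 13)) (fl : Bool)
    (hg : ∀ s : Finset (Fin 13), s.map g.toEmbedding ∈ KK ↔ s ∈ KK) (p : PP KK) :
    mapPP g.symm fl (hg_symm g hg) (mapPP g fl hg p) = p := by
  have h2 : (mapPP g.symm fl (hg_symm g hg) (mapPP g fl hg p)).1.2 = p.1.2 := by
    rw [mapPP_snd, mapPP_snd, map_symm_map]
  apply Subtype.ext
  apply Prod.ext
  · by_cases h : p.1.2 ∈ KK
    · have h' : (mapPP g fl hg p).1.2 ∈ KK := by rw [mapPP_snd]; exact (hg _).mpr h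
      rw [mapPP_fst_of_mem _ _ _ _ h', p.2.2 h]
    · have h' : (mapPP g fl hg p).1.2 ∉ KK := by
        rw [mapPP_snd]; exact fun h'' => h ((hg _).mp h'')
      rw [mapPP_fst_of_not_mem _ _ _ _ h', mapPP_fst_of_not_mem _ _ _ _ h]
      cases fl <;> cases p.1.1 <;> rfl
  · exact h2

theorem mapPP_right (g : Equiv.Perm (Fin 13)) (fl : Bool)
    (hg : ∀ s : Finset (Fin 13), s.map g.toEmbedding ∈ KK ↔ s ∈ KK) (p : PP KK) :
    mapPP g fl hg (mapPP g.symm fl (hg_symm g hg) p) = p := by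
  have h2 : (mapPP g fl hg (mapPP g.symm fl (hg_symm g hg) p)).1.2 = p.1.2 := by
    rw [mapPP_snd, mapPP_snd, map_map_symm]
  apply Subtype.ext
  apply Prod.ext
  · by_cases h : p.1.2 ∈ KK
    · have h' : (mapPP g.symm fl (hg_symm g hg) p).1.2 ∈ KK := by
        rw [mapPP_snd]; exact (hg_symm g hg _).mpr h
      rw [mapPP_fst_of_mem _ _ _ _ h', p.2.2 h]
    · have h' : (mapPP g.symm fl (hg_symm g hg) p).1.2 ∉ KK := by
        rw [mapPP_snd]; exact fun h'' => h ((hg_symm g hg _).mp h'')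
      rw [mapPP_fst_of_not_mem _ _ _ _ h', mapPP_fst_of_not_mem _ _ _ _ h]
      cases fl <;> cases p.1.1 <;> rfl
  · exact h2

/-- The induced permutation of the glued complex. -/
noncomputable def permPP (g : Equiv.Perm (Fin 13)) (fl : Bool)
    (hg : ∀ s : Finset (Fin 13), s.map g.toEmbedding ∈ KK ↔ s ∈ KK) : Equiv.Perm (PP KK) where
  toFun := mapPP g fl hg
  invFun := mapPP g.symm fl (hg_symm g hg)
  left_inv := mapPP_left g fl hg
  right_inv := mapPP_right g fl hg

theorem permPP_cc (g : Equiv.Perm (Fin 13)) (fl : Bool)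
    (hg : ∀ s : Finset (Fin 13), s.map g.toEmbedding ∈ KK ↔ s ∈ KK) (p q : PP KK) :
    cc KK (permPP g fl hg p) (permPP g fl hg q) ↔ cc KK p q := by
  show cc KK (mapPP g fl hg p) (mapPP g fl hg q) ↔ cc KK p q
  unfold cc
  rw [mapPP_snd, mapPP_snd, Finset.map_subset_map, Finset.map_subset_map, hg, hg]
  by_cases hp : p.1.2 ∈ KK
  · simp only [hp, true_or, or_true, and_true]
  · by_cases hq : q.1.2 ∈ KK
    · simp only [hq, or_true, and_true]
    · rw [mapPP_fst_of_not_mem _ _ _ _ hp, mapPP_fst_of_not_mem _ _ _ _ hq]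
      have : ((xor fl p.1.1) = (xor fl q.1.1)) ↔ (p.1.1 = q.1.1) := by
        cases fl <;> cases p.1.1 <;> cases q.1.1 <;> decide
      rw [this]

theorem pp_auto (x : PP KK) : ∃ g : Equiv.Perm (PP KK),
    (∀ p q, cc KK (g p) (g q) ↔ cc KK p q) ∧ g x ≠ x ∧ ¬ cc KK (g x) x := by
  by_cases hx : x.1.2 ∈ KK
  · obtain ⟨g, hg, hne⟩ := KK_nofix x.1.2 hx x.2.1
    have hsym : ∀ s : Finset (Fin 13), s.map g.toEmbedding ∈ KK ↔ s ∈ KK := KK_sym g hg
    refine ⟨permPP g false hsym, permPP_cc g false hsym, ?_, ?_⟩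
    · intro h
      apply hne
      have := congrArg (fun p : PP KK => p.1.2) h
      exact this
    · rintro ⟨h, -⟩
      have hc : (x.1.2.map g.toEmbedding).card = x.1.2.card := Finset.card_map _
      rcases h with h | h
      · exact hne (Finset.eq_of_subset_of_card_le h (le_of_eq hc.symm))
      · exact hne (Finset.eq_of_subset_of_card_le h (le_of_eq hc)).symm
  · have hsym : ∀ s : Finset (Fin 13), s.map gsw.toEmbedding ∈ KK ↔ s ∈ KK :=
      KK_sym gsw (Or.inr (Or.inr rfl))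
    have hb : (permPP gsw true hsym x).1.1 = !x.1.1 := by
      show (mapPP gsw true hsym x).1.1 = _
      rw [mapPP_fst_of_not_mem _ _ _ _ hx]
      cases x.1.1 <;> rfl
    have hs : (permPP gsw true hsym x).1.2 = x.1.2.map gsw.toEmbedding := rfl
    refine ⟨permPP gsw true hsym, permPP_cc gsw true hsym, ?_, ?_⟩
    · intro h
      rw [h] at hb
      cases hc : x.1.1 <;> rw [hc] at hb <;> exact Bool.noConfusion hb
    · rintro ⟨-, h⟩
      rcases h with h | h | h
      · rw [hb] at h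
        cases hc : x.1.1 <;> rw [hc] at h <;> exact Bool.noConfusion h
      · rw [hs] at h
        exact hx ((hsym _).mp h)
      · exact hx h

end AUT885
end Pool.Agent.H571R3
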