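import Pool.Agent.H571R3.Defs
import Pool.Agent.H472R2.Evas.Cert

set_option autoImplicit false
set_option maxRecDepth 100000

/-! Task CERT: the full simplex on 13 vertices collapses to `KK` (helper472). -/

namespace Pool.Agent.H571R3

open Pool.Agent.H472R2.Evas (dec mem_dec dec_surj dec_zero dec_nonempty mem_DS tb tb_eq testAll
  testAll_spec K_down cert_ind Exp D0)

theorem Coll.trans' {n : ℕ} {A B C : Set (Finset (Fin n))} (h1 : Coll A B) (h2 : Coll B C) :
    Coll A C := by
  induction h1 with
  | refl L => exact h2
  | step L K s v hv hne hs ht hfree _ ih => exact Coll.step L C s v hv hne hs ht hfree (ih h2)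

theorem dec_subset {m f : ℕ} (h : ∀ i ∈ dec m, f.testBit i.val = true) : dec m ⊆ dec f :=
  fun i hi => mem_dec.2 (h i hi)

theorem KK_eq : KK = Pool.Agent.H472R2.Evas.K ∪ {∅} := by
  have h1 : testAll (fun m => List.any facets (fun f => Nat.beq (Nat.land m f) m)) 8192 = true := by
    decide +kernel
  have h2 : ∀ f ∈ facets, tb D0 f = true ∧ f < 8192 ∧ f ≠ 0 := by decide +kernel
  ext s
  constructor
  · rintro ⟨f, hf, h⟩
    by_cases hs : s.Nonempty
    · left
      obtain ⟨m, hm, rfl⟩ := dec_surj s
      obtain ⟨h3, h4, h5⟩ := h2 f hf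
      rw [tb_eq] at h3
      exact K_down (dec f) ((mem_DS h4 h5).2 h3) (dec m) (dec_subset h) hs
    · right
      rw [Finset.not_nonempty_iff_eq_empty] at hs
      exact hs
  · rintro (h | h)
    · obtain ⟨m, hm, h0, hD, rfl⟩ := h
      have h3 := testAll_spec h1 m hm hD
      rw [List.any_eq_true] at h3
      obtain ⟨f, hf, h4⟩ := h3
      have h5 : m &&& f = m := Nat.eq_of_beq_eq_true h4
      refine ⟨f, hf, ?_⟩
      intro i hi
      rw [mem_dec, ← h5, Nat.testBit_and, Bool.and_eq_true] at hi
      exact hi.2
    · have h' : s = ∅ := h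
      subst h'
      exact ⟨2083, by decide, by simp⟩

/-- Task CERT. -/
theorem coll_KK : Coll (Set.univ : Set (Finset (Fin 13))) KK := by
  rw [KK_eq]
  apply cert_ind (fun D => Coll (Set.univ : Set (Finset (Fin 13))) (D ∪ {∅}))
  · have h : ({a | a.Nonempty} ∪ {∅} : Set (Finset (Fin 13))) = Set.univ := by
      ext a
      simp only [Set.mem_union, Set.mem_setOf_eq, Set.mem_singleton_iff, Set.mem_univ, iff_true]
      rcases a.eq_empty_or_nonempty with h | h
      · exact Or.inr h
      · exact Or.inl h
    rw [h]
    exact Coll.refl _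
  · intro D S T hE hM
    refine Coll.trans' hM ?_
    obtain ⟨u, hu, rfl⟩ := hE.hst
    have hT : (insert u S).Nonempty := ⟨u, Finset.mem_insert_self _ _⟩
    have key : ((D ∪ {S, insert u S}) ∪ {∅}) \ {S, insert u S} = D ∪ {∅} := by
      ext a
      simp only [Set.mem_diff, Set.mem_union, Set.mem_insert_iff, Set.mem_singleton_iff]
      constructor
      · rintro ⟨(h | h) | h, h2⟩
        · exact Or.inl h
        · exact absurd h h2
        · exact Or.inr h
      · rintro (h | h)
        · refine ⟨Or.inl (Or.inl h), ?_⟩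
          rintro (h2 | h2)
          · rw [h2] at h; exact hE.s_not h
          · rw [h2] at h; exact hE.t_not h
        · refine ⟨Or.inr h, ?_⟩
          rintro (h2 | h2)
          · rw [h2] at h; exact absurd h (Finset.nonempty_iff_ne_empty.mp hE.s_ne)
          · rw [h2] at h; exact absurd h (Finset.nonempty_iff_ne_empty.mp hT)
    refine Coll.step _ _ S u hu hE.s_ne ?_ ?_ ?_ ?_
    · left; right; left; rfl
    · left; right; right; rfl
    · intro t ht hSt hne
      rcases ht with (ht | ht) | ht
      · exact absurd (hE.down t ht S hSt hE.s_ne) hE.s_not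
      · rcases ht with ht | ht
        · exact absurd ht hne
        · exact ht
      · have ht' : t = ∅ := ht
        rw [ht'] at hSt
        exact absurd (Finset.subset_empty.mp hSt) (Finset.nonempty_iff_ne_empty.mp hE.s_ne)
    · rw [key]
      exact Coll.refl _

end Pool.Agent.H571R3
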