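import Pool.Agent.H571R3.Defs

set_option autoImplicit false

/-! Task GL (second copy, helper128): the clique complex of the glued poset is nonevasive. -/

namespace Pool.Agent.H571R3

namespace GL128

variable {n : ℕ}

theorem coll_subset {L K : Set (Finset (Fin n))} (h : Coll L K) : K ⊆ L := by
  induction h with
  | refl L => exact subset_rfl
  | step L K s v hv hne hs ht hfree _ ih => exact fun x hx => (ih hx).1

/-- On the upper copy together with `K`, compatibility is comparability. -/
theorem cc_of_upper {K : Set (Finset (Fin n))} {p q : PP K} (hp : p.1.1 = true ∨ p.1.2 ∈ K)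
    (hq : q.1.1 = true ∨ q.1.2 ∈ K) (h : p.1.2 ⊆ q.1.2 ∨ q.1.2 ⊆ p.1.2) : cc K p q := by
  refine ⟨h, ?_⟩
  rcases hp with hp | hp
  · rcases hq with hq | hq
    · exact Or.inl (hp.trans hq.symm)
    · exact Or.inr (Or.inr hq)
  · exact Or.inr (Or.inl hp)

theorem eq_of_upper {K : Set (Finset (Fin n))} {p q : PP K} (hp : p.1.1 = true ∨ p.1.2 ∈ K)
    (hq : q.1.1 = true ∨ q.1.2 ∈ K) (h : p.1.2 = q.1.2) : p = q := by
  apply Subtype.ext
  apply Prod.ext
  · by_cases hK : p.1.2 ∈ K
    · rw [p.2.2 hK, q.2.2 (h ▸ hK)]
    · have hK' : q.1.2 ∉ K := h ▸ hK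
      rw [hp.resolve_right hK, hq.resolve_right hK']
  · exact h

theorem exists_upper (K : Set (Finset (Fin n))) (r : Finset (Fin n)) (hr : r.Nonempty) :
    ∃ p : PP K, p.1.2 = r ∧ (p.1.1 = true ∨ p.1.2 ∈ K) := by
  classical
  by_cases hK : r ∈ K
  · exact ⟨⟨(false, r), hr, fun _ => rfl⟩, rfl, Or.inr hK⟩
  · exact ⟨⟨(true, r), hr, fun h => absurd h hK⟩, rfl, Or.inl rfl⟩

/-- The link of the big simplex of a free pair. -/
theorem nep_link {K : Set (Finset (Fin n))} (s : Finset (Fin n)) (v : Fin n) (hv : v ∉ s)
    (hne : s.Nonempty) : ∀ (m : ℕ) (D : Finset (Finset (Fin n))), D.card = m →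
      (∀ r ∈ D, r ⊂ s ∧ r.Nonempty) → (∀ r ∈ D, ∀ r' : Finset (Fin n), r' ⊆ r → r'.Nonempty → r' ∈ D) →
      NEP (cc K) {y : PP K | y.1.2 ⊂ insert v s ∧ (y.1.1 = true ∨ y.1.2 ∈ K) ∧
        (v ∈ y.1.2 ∨ y.1.2 ∈ D)} := by
  classical
  intro m
  induction m with
  | zero =>
    intro D hD _ _
    have hD0 : D = ∅ := Finset.card_eq_zero.1 hD
    subst hD0
    obtain ⟨p, hp1, hp2⟩ := exists_upper K {v} (Finset.singleton_nonempty v)
    refine NEP.cone _ p ?_ ?_
    · refine ⟨?_, hp2, Or.inl (by rw [hp1]; simp)⟩
      rw [hp1]
      obtain ⟨a, ha⟩ := hne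
      refine ⟨by simp, ?_⟩
      intro h
      have := h (Finset.mem_insert_of_mem ha)
      rw [Finset.mem_singleton] at this
      exact hv (this ▸ ha)
    · rintro y ⟨_, hy2, hy3⟩ _
      refine cc_of_upper hp2 hy2 (Or.inl ?_)
      rw [hp1, Finset.singleton_subset_iff]
      rcases hy3 with h | h
      · exact h
      · exact absurd h (Finset.notMem_empty _)
  | succ m ih =>
    intro D hD hDs hDd
    have hDne : D.Nonempty := by
      rw [← Finset.card_pos]; omega
    obtain ⟨r, hrD, hrmax⟩ := Finset.exists_max_image D (fun r => r.card) hDne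
    obtain ⟨hrs, hrne⟩ := hDs r hrD
    have hvr : v ∉ r := fun h => hv (hrs.1 h)
    have hmax : ∀ q ∈ D, r ⊆ q → q = r := fun q hq hrq =>
      (Finset.eq_of_subset_of_card_le hrq (hrmax q hq)).symm
    obtain ⟨p, hp1, hp2⟩ := exists_upper K r hrne
    obtain ⟨q, hq1, hq2⟩ := exists_upper K (insert v r) (Finset.insert_nonempty _ _)
    have hins : insert v r ⊂ insert v s := by
      refine ⟨Finset.insert_subset_insert v hrs.1, ?_⟩
      intro h
      refine hrs.2 ?_
      intro a ha
      have := h (Finset.mem_insert_of_mem ha)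
      rcases Finset.mem_insert.1 this with h' | h'
      · exact absurd (h' ▸ ha) hv
      · exact h'
    have hqp : q ≠ p := by
      intro h
      have h' : insert v r = r := by rw [← hq1, h, hp1]
      exact hvr (h' ▸ Finset.mem_insert_self v r)
    refine NEP.del _ p ?_ ?_ ?_
    · refine ⟨?_, hp2, Or.inr (by rw [hp1]; exact hrD)⟩
      rw [hp1]
      exact lt_of_lt_of_le hrs (Finset.subset_insert v s)
    · refine NEP.cone _ q ?_ ?_
      · refine ⟨⟨by rw [hq1]; exact hins, hq2, Or.inl (by rw [hq1]; simp)⟩, hqp, ?_⟩
        exact cc_of_upper hp2 hq2 (Or.inl (by rw [hp1, hq1]; exact Finset.subset_insert v r))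
      · rintro y ⟨⟨_, hy2, hy3⟩, hyp, hcc⟩ _
        refine cc_of_upper hq2 hy2 ?_
        rw [hq1]
        rcases hcc.1 with h | h
        · rw [hp1] at h
          rcases hy3 with h3 | h3
          · exact Or.inl (Finset.insert_subset h3 h)
          · exfalso
            have := hmax _ h3 h
            exact hyp (eq_of_upper hy2 hp2 (this.trans hp1.symm))
        · rw [hp1] at h
          exact Or.inr (h.trans (Finset.subset_insert v r))
    · have := ih (D.erase r) (by rw [Finset.card_erase_of_mem hrD]; omega)
        (fun q hq => hDs q (Finset.mem_of_mem_erase hq))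
        (by
          intro a ha r' hr' hr'ne
          refine Finset.mem_erase.2 ⟨?_, hDd a (Finset.mem_of_mem_erase ha) r' hr' hr'ne⟩
          rintro rfl
          exact (Finset.ne_of_mem_erase ha) (hmax a (Finset.mem_of_mem_erase ha) hr'))
      convert this using 1
      ext y
      constructor
      · rintro ⟨⟨hy1, hy2, hy3⟩, hyp⟩
        refine ⟨hy1, hy2, ?_⟩
        rcases hy3 with h | h
        · exact Or.inl h
        · refine Or.inr (Finset.mem_erase.2 ⟨?_, h⟩)
          intro he
          exact hyp (Set.mem_singleton_iff.2 (eq_of_upper hy2 hp2 (he.trans hp1.symm)))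
      · rintro ⟨hy1, hy2, hy3⟩
        refine ⟨⟨hy1, hy2, ?_⟩, ?_⟩
        · rcases hy3 with h | h
          · exact Or.inl h
          · exact Or.inr (Finset.mem_of_mem_erase h)
        · intro hyp
          have he : y.1.2 = r := by rw [Set.mem_singleton_iff.1 hyp, hp1]
          rcases hy3 with h | h
          · exact hvr (he ▸ h)
          · exact (Finset.ne_of_mem_erase h) he

theorem coll_nep (hn : 0 < n) {L K : Set (Finset (Fin n))} (h : Coll L K) :
    (∀ s ∈ L, ∀ t, t ⊆ s → t ∈ L) →
      NEP (cc K) {p : PP K | p.1.1 = false ∨ p.1.2 ∈ L} := by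
  classical
  induction h with
  | refl L =>
    intro _
    have hu : (Finset.univ : Finset (Fin n)).Nonempty := ⟨⟨0, hn⟩, Finset.mem_univ _⟩
    refine NEP.cone _ (⟨(false, Finset.univ), hu, fun _ => rfl⟩ : PP L) (Or.inl rfl) ?_
    rintro y hy _
    refine ⟨Or.inr (Finset.subset_univ _), Or.inl ?_⟩
    rcases hy with h | h
    · exact h.symm
    · exact (y.2.2 h).symm
  | step L K s v hv hne hs ht hfree hcoll ih =>
    intro hdown
    have hKL := coll_subset hcoll
    have hsK : s ∉ K := fun h => (hKL h).2 (Or.inl rfl)
    have htK : insert v s ∉ K := fun h => (hKL h).2 (Or.inr rfl)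
    have hts : insert v s ≠ s := by
      intro h
      exact hv (h ▸ Finset.mem_insert_self v s)
    let ps : PP K := ⟨(true, s), hne, fun h => absurd h hsK⟩
    let pt : PP K := ⟨(true, insert v s), Finset.insert_nonempty _ _, fun h => absurd h htK⟩
    have hpst : pt ≠ ps := by
      intro h
      exact hts (congrArg (fun p : PP K => p.1.2) h)
    have hsu : ps.1.1 = true ∨ ps.1.2 ∈ K := Or.inl rfl
    have htu : pt.1.1 = true ∨ pt.1.2 ∈ K := Or.inl rfl
    have hdown' : ∀ r ∈ L \ {s, insert v s}, ∀ r', r' ⊆ r → r' ∈ L \ {s, insert v s} := by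
      rintro r ⟨hr, hr2⟩ r' hr'
      refine ⟨hdown r hr r' hr', ?_⟩
      have hsr : ¬ s ⊆ r := by
        intro h
        by_cases h' : r = s
        · exact hr2 (Or.inl h')
        · exact hr2 (Or.inr (hfree r hr h h'))
      rintro (rfl | h)
      · exact hsr hr'
      · rw [Set.mem_singleton_iff] at h
        subst h
        exact hsr ((Finset.subset_insert v s).trans hr')
    refine NEP.del _ ps (Or.inr hs) ?_ ?_
    · -- the link of the small simplex is a cone
      refine NEP.cone _ pt ⟨Or.inr ht, hpst, ?_⟩ ?_
      · exact cc_of_upper hsu htu (Or.inl (Finset.subset_insert v s))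
      · rintro y ⟨hyL, hys, hcc⟩ hyt
        have hyu : y.1.1 = true ∨ y.1.2 ∈ K := by
          rcases hcc.2 with h | h | h
          · exact Or.inl h.symm
          · exact absurd h hsK
          · exact Or.inr h
        have hyL' : y.1.2 ∈ L := by
          rcases hyL with h | h
          · rcases hyu with h' | h'
            · rw [h] at h'
              exact absurd h' (by decide)
            · exact (hKL h').1
          · exact h
        refine cc_of_upper htu hyu ?_
        rcases hcc.1 with h | h
        · exfalso
          by_cases he : y.1.2 = s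
          · exact hys (eq_of_upper hyu hsu he)
          · exact hyt (eq_of_upper hyu htu (hfree _ hyL' h he))
        · exact Or.inr (h.trans (Finset.subset_insert v s))
    · refine NEP.del _ pt ⟨Or.inr ht, fun h => hpst (Set.mem_singleton_iff.1 h)⟩ ?_ ?_
      · -- the link of the big simplex
        let D : Finset (Finset (Fin n)) := s.powerset.filter (fun r => r ≠ s ∧ r.Nonempty)
        have hD : ∀ r, r ∈ D ↔ r ⊆ s ∧ r ≠ s ∧ r.Nonempty := by
          intro r
          simp [D]
        have key := nep_link (K := K) s v hv hne D.card D rfl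
          (fun r hr => by
            obtain ⟨h1, h2, h3⟩ := (hD r).1 hr
            exact ⟨Finset.ssubset_iff_subset_ne.2 ⟨h1, h2⟩, h3⟩)
          (fun r hr r' hr' hne' => by
            obtain ⟨h1, h2, h3⟩ := (hD r).1 hr
            refine (hD r').2 ⟨hr'.trans h1, ?_, hne'⟩
            rintro rfl
            exact h2 (Finset.Subset.antisymm h1 hr'))
        convert key using 1
        ext y
        constructor
        · rintro ⟨⟨hyL, hys⟩, hyt, hcc⟩
          have hyu : y.1.1 = true ∨ y.1.2 ∈ K := by
            rcases hcc.2 with h | h | h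
            · exact Or.inl h.symm
            · exact absurd h htK
            · exact Or.inr h
          have hyL' : y.1.2 ∈ L := by
            rcases hyL with h | h
            · rcases hyu with h' | h'
              · rw [h] at h'
                exact absurd h' (by decide)
              · exact (hKL h').1
            · exact h
          have hne1 : y.1.2 ≠ s := fun he => hys (Set.mem_singleton_iff.2 (eq_of_upper hyu hsu he))
          have hne2 : y.1.2 ≠ insert v s := fun he => hyt (eq_of_upper hyu htu he)
          have hsub : y.1.2 ⊆ insert v s := by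
            rcases hcc.1 with h | h
            · exact absurd (hfree _ hyL' ((Finset.subset_insert v s).trans h) hne1) hne2
            · exact h
          refine ⟨Finset.ssubset_iff_subset_ne.2 ⟨hsub, hne2⟩, hyu, ?_⟩
          by_cases hvy : v ∈ y.1.2
          · exact Or.inl hvy
          · refine Or.inr ((hD _).2 ⟨?_, hne1, y.2.1⟩)
            intro a ha
            rcases Finset.mem_insert.1 (hsub ha) with h | h
            · exact absurd (h ▸ ha) hvy
            · exact h
        · rintro ⟨hy1, hyu, hy3⟩
          have hyL' : y.1.2 ∈ L := hdown _ ht _ hy1.1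
          refine ⟨⟨Or.inr hyL', ?_⟩, ?_, cc_of_upper htu hyu (Or.inr hy1.1)⟩
          · intro h
            have he : y.1.2 = s := by rw [Set.mem_singleton_iff.1 h]
            rcases hy3 with h3 | h3
            · exact hv (he ▸ h3)
            · exact ((hD _).1 h3).2.1 he
          · intro h
            have he : y.1.2 = insert v s := by rw [h]
            exact hy1.2 (he ▸ subset_rfl)
      · convert ih hdown' using 1
        ext y
        constructor
        · rintro ⟨⟨hyL, hys⟩, hyt⟩
          rcases hyL with h | h
          · exact Or.inl h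
          · by_cases hb : y.1.1 = false
            · exact Or.inl hb
            · have hyu : y.1.1 = true ∨ y.1.2 ∈ K := Or.inl (by simpa using hb)
              refine Or.inr ⟨h, ?_⟩
              rintro (he | he)
              · exact hys (Set.mem_singleton_iff.2 (eq_of_upper hyu hsu he))
              · exact hyt (Set.mem_singleton_iff.2 (eq_of_upper hyu htu he))
        · intro hy
          refine ⟨⟨?_, ?_⟩, ?_⟩
          · rcases hy with h | h
            · exact Or.inl h
            · exact Or.inr h.1
          · intro h
            rw [Set.mem_singleton_iff.1 h] at hy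
            rcases hy with h' | h'
            · exact absurd h' (by simp [ps])
            · exact h'.2 (Or.inl rfl)
          · intro h
            rw [Set.mem_singleton_iff.1 h] at hy
            rcases hy with h' | h'
            · exact absurd h' (by simp [pt])
            · exact h'.2 (Or.inr rfl)

end GL128

theorem nep_glued {n : ℕ} (hn : 0 < n) (K : Set (Finset (Fin n)))
    (_hdown : ∀ s ∈ K, ∀ t, t ⊆ s → t ∈ K) (hcoll : Coll Set.univ K) :
    NEP (cc K) Set.univ := by
  have := GL128.coll_nep hn hcoll (fun _ _ _ _ => Set.mem_univ _)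
  convert this using 1
  ext y
  simp

end Pool.Agent.H571R3
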