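import Pool.Agent.H571R3.Defs

set_option autoImplicit false

/-! Task NW (second copy, helper128). -/

namespace Pool.Agent.H571R3

theorem nep_win_aux128 {P : Type} (c : P → P → Prop) (hsymm : ∀ x y, c x y → c y x)
    {L : Set P} (h : NEP c L) : ∀ T N : Set P, T.Pairwise c →
      (∀ x ∈ L, x ∉ T ∧ x ∉ N ∧ ∀ y ∈ T, c x y) →
      (∀ x, x ∉ T → x ∉ N → x ∉ L → ∃ y ∈ T, ¬ c x y) →
      Win (fun A : Set P => A.Pairwise c) T N := by
  classical
  induction h with
  | cone L x hx h =>
    intro T N hT hL hrest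
    obtain ⟨hxT, hxN, hxc⟩ := hL x hx
    refine Win.irrel T N x hxT hxN ?_
    intro X hTX hXN
    constructor
    · intro hp
      exact hp.mono (Set.sdiff_subset.trans (Set.subset_insert x X))
    · intro hp
      have hsub : ∀ d ∈ X, d ≠ x → d ∈ T ∨ d ∈ L := by
        intro d hd hdx
        by_contra hcon
        push Not at hcon
        obtain ⟨y, hy, hyc⟩ := hrest d hcon.1 (Set.disjoint_left.1 hXN hd) hcon.2
        have hyx : y ≠ x := fun he => hxT (he ▸ hy)
        have hdy : d ≠ y := fun he => hcon.1 (he ▸ hy)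
        exact hyc (hp ⟨hd, hdx⟩ ⟨hTX hy, hyx⟩ hdy)
      have hxd : ∀ d ∈ X, d ≠ x → c x d := by
        intro d hd hdx
        rcases hsub d hd hdx with h' | h'
        · exact hxc d h'
        · exact h d h' hdx
      intro a ha b hb hab
      by_cases hax : a = x
      · subst hax
        rcases hb with hb | hb
        · exact absurd hb.symm hab
        · exact hxd b hb (fun h => hab h.symm)
      · have ha' : a ∈ X := ha.resolve_left hax
        by_cases hbx : b = x
        · subst hbx
          exact hsymm _ _ (hxd a ha' hax)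
        · exact hp ⟨ha', hax⟩ ⟨hb.resolve_left hbx, hbx⟩ hab
  | del L x hx _ _ ih1 ih0 =>
    intro T N hT hL hrest
    obtain ⟨hxT, hxN, hxc⟩ := hL x hx
    refine Win.query T N x hxT hxN ?_ ?_
    · refine ih1 (insert x T) N ?_ ?_ ?_
      · rw [Set.pairwise_insert]
        exact ⟨hT, fun b hb _ => ⟨hxc b hb, hsymm _ _ (hxc b hb)⟩⟩
      · rintro y ⟨hyL, hyx, hxy⟩
        obtain ⟨h1, h2, h3⟩ := hL y hyL
        refine ⟨?_, h2, ?_⟩
        · rintro (h | h)
          · exact hyx h
          · exact h1 h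
        · rintro z (rfl | hz)
          · exact hsymm _ _ hxy
          · exact h3 z hz
      · intro y hyT hyN hyL
        by_cases hyL' : y ∈ L
        · refine ⟨x, Or.inl rfl, ?_⟩
          intro hc
          exact hyL ⟨hyL', fun h => hyT (Or.inl h), hsymm _ _ hc⟩
        · obtain ⟨z, hz, hzc⟩ := hrest y (fun h => hyT (Or.inr h)) hyN hyL'
          exact ⟨z, Or.inr hz, hzc⟩
    · refine ih0 T (insert x N) hT ?_ ?_
      · rintro y ⟨hyL, hyx⟩
        obtain ⟨h1, h2, h3⟩ := hL y hyL
        refine ⟨h1, ?_, h3⟩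
        rintro (h | h)
        · exact hyx h
        · exact h2 h
      · intro y hyT hyN hyL
        refine hrest y hyT (fun h => hyN (Or.inr h)) ?_
        intro h
        exact hyL ⟨h, fun h' => hyN (Or.inl h')⟩

theorem nep_win {P : Type} (c : P → P → Prop) (hsymm : ∀ x y, c x y → c y x)
    (h : NEP c Set.univ) : Win (fun A : Set P => A.Pairwise c) ∅ ∅ := by
  refine nep_win_aux128 c hsymm h ∅ ∅ (Set.pairwise_empty c) ?_ ?_
  · intro x _
    exact ⟨Set.notMem_empty x, Set.notMem_empty x, fun y hy => absurd hy (Set.notMem_empty y)⟩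
  · intro x _ _ hx
    exact absurd (Set.mem_univ x) hx

end Pool.Agent.H571R3
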