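import Pool.Agent.H571R3.Defs

set_option autoImplicit false

namespace Pool.Agent.H571R3

/-- The automorphism group of the relation `c`. -/
def autGrp {P : Type} (c : P → P → Prop) : Subgroup (Equiv.Perm P) where
  carrier := {g | ∀ p q, c (g p) (g q) ↔ c p q}
  mul_mem' := by
    intro a b ha hb p q
    have h1 := ha (b p) (b q)
    have h2 := hb p q
    simp only [Equiv.Perm.coe_mul, Function.comp_apply]
    exact h1.trans h2
  one_mem' := by
    intro p q
    simp
  inv_mem' := by
    intro a ha p q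
    have h := ha (a⁻¹ p) (a⁻¹ q)
    have h1 : a (a⁻¹ p) = p := Equiv.apply_symm_apply a p
    have h2 : a (a⁻¹ q) = q := Equiv.apply_symm_apply a q
    rw [h1, h2] at h
    exact h.symm

theorem orbit_types {P : Type} [Finite P] [Nonempty P] (c : P → P → Prop)
    (hfix : ∀ x : P, ∃ g : Equiv.Perm P, (∀ p q, c (g p) (g q) ↔ c p q) ∧ g x ≠ x ∧
      ¬ c (g x) x) :
    ∃ (k : ℕ) (_ : NeZero k) (typ : P → ZMod k), Function.Surjective typ ∧
      (∀ i, ¬ ({v | typ v = i} : Set P).Pairwise c) ∧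
      (∀ u v, typ u = typ v → ∃ g : Equiv.Perm P, g u = v ∧ (∀ x, typ (g x) = typ x) ∧
        ∀ A : Set P, (g '' A).Pairwise c ↔ A.Pairwise c) := by
  classical
  let Q := MulAction.orbitRel.Quotient (autGrp c) P
  haveI : Finite Q := Quotient.finite _
  haveI : Nonempty Q := ⟨Quotient.mk'' (Classical.arbitrary P)⟩
  haveI hk : NeZero (Nat.card Q) := ⟨Nat.card_pos.ne'⟩
  have e1 : Q ≃ ZMod (Nat.card Q) :=
    (Finite.equivFin Q).trans (ZMod.finEquiv (Nat.card Q)).toEquiv
  have key : ∀ u v : P, e1 (Quotient.mk'' u) = e1 (Quotient.mk'' v) ↔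
      ∃ g : Equiv.Perm P, g ∈ autGrp c ∧ g v = u := by
    intro u v
    rw [e1.injective.eq_iff]
    constructor
    · intro h
      have h' : (MulAction.orbitRel (autGrp c) P) u v := Quotient.eq''.mp h
      rw [MulAction.orbitRel_apply] at h'
      obtain ⟨g, hg⟩ := h'
      exact ⟨g.1, g.2, hg⟩
    · rintro ⟨g, hg, hgv⟩
      apply Quotient.eq''.mpr
      show (MulAction.orbitRel (autGrp c) P) u v
      rw [MulAction.orbitRel_apply]
      exact ⟨⟨g, hg⟩, hgv⟩
  refine ⟨Nat.card Q, hk, fun x => e1 (Quotient.mk'' x), ?_, ?_, ?_⟩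
  · intro i
    obtain ⟨x, hx⟩ := Quotient.exists_rep (e1.symm i)
    refine ⟨x, ?_⟩
    have : (Quotient.mk'' x : Q) = e1.symm i := hx
    simp only [this, Equiv.apply_symm_apply]
  · intro i hi
    obtain ⟨x, hx⟩ := Quotient.exists_rep (e1.symm i)
    have hx' : e1 (Quotient.mk'' x) = i := by
      have : (Quotient.mk'' x : Q) = e1.symm i := hx
      simp only [this, Equiv.apply_symm_apply]
    obtain ⟨g, hg, hne, hnc⟩ := hfix x
    have hgx : e1 (Quotient.mk'' (g x)) = i := by
      rw [← hx']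
      exact (key (g x) x).mpr ⟨g, hg, rfl⟩
    exact hnc (hi (show g x ∈ {v | e1 (Quotient.mk'' v) = i} from hgx) hx' hne)
  · intro u v huv
    obtain ⟨g, hg, hgu⟩ := (key v u).mp huv.symm
    refine ⟨g, hgu, ?_, ?_⟩
    · intro x
      exact (key (g x) x).mpr ⟨g, hg, rfl⟩
    · intro A
      have hg' : ∀ p q, c (g p) (g q) ↔ c p q := hg
      constructor
      · intro h a ha b hb hab
        exact (hg' a b).mp (h (Set.mem_image_of_mem g ha) (Set.mem_image_of_mem g hb)
          (fun h' => hab (g.injective h')))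
      · rintro h _ ⟨a, ha, rfl⟩ _ ⟨b, hb, rfl⟩ hab
        exact (hg' a b).mpr (h ha hb (fun h' => hab (by rw [h'])))

end Pool.Agent.H571R3
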