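import Pool.Agent.H571R3.Defs

set_option autoImplicit false

/-! Task SYM (second copy, helper128). -/

namespace Pool.Agent.H571R3

namespace SYM128

variable {V : Type} {k : ℕ} {typ : V → ZMod k}

theorem missing_anti {X Y : Set (Word typ)} (h : X ⊆ Y) (c : ZMod k) :
    missing typ Y c ⊆ missing typ X c := by
  rintro v ⟨e, he⟩
  exact ⟨e, fun w hw => he w (h hw)⟩

/-- Coordinatewise action. -/
def act (g : ZMod k → Equiv.Perm V) (hg : ∀ c x, typ (g c x) = typ x) (e : ZMod k → Bool) :
    Equiv.Perm (Word typ) where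
  toFun w := ⟨fun c => (g c (w.1 c).1, xor (w.1 c).2 (e c)), fun c => by
    show typ (g c (w.1 c).1) = c + typ (g 0 (w.1 0).1)
    rw [hg, hg]; exact w.2 c⟩
  invFun w := ⟨fun c => ((g c).symm (w.1 c).1, xor (w.1 c).2 (e c)), fun c => by
    have h : ∀ c x, typ ((g c).symm x) = typ x := fun c x => by
      conv_rhs => rw [← (g c).apply_symm_apply x]
      rw [hg]
    show typ ((g c).symm (w.1 c).1) = c + typ ((g 0).symm (w.1 0).1)
    rw [h, h]; exact w.2 c⟩
  left_inv w := by
    apply Subtype.ext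
    funext c
    apply Prod.ext
    · show (g c).symm (g c (w.1 c).1) = _
      simp
    · show xor (xor (w.1 c).2 (e c)) (e c) = _
      simp
  right_inv w := by
    apply Subtype.ext
    funext c
    apply Prod.ext
    · show g c ((g c).symm (w.1 c).1) = _
      simp
    · show xor (xor (w.1 c).2 (e c)) (e c) = _
      simp

/-- Rotation. -/
def rot (s : ZMod k) : Equiv.Perm (Word typ) where
  toFun w := ⟨fun c => w.1 (c + s), fun c => by
    show typ (w.1 (c + s)).1 = c + typ (w.1 (0 + s)).1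
    rw [w.2 (c + s), w.2 (0 + s)]; ring⟩
  invFun w := ⟨fun c => w.1 (c - s), fun c => by
    show typ (w.1 (c - s)).1 = c + typ (w.1 (0 - s)).1
    rw [w.2 (c - s), w.2 (0 - s)]; ring⟩
  left_inv w := by
    apply Subtype.ext
    funext c
    show w.1 (c - s + s) = _
    simp
  right_inv w := by
    apply Subtype.ext
    funext c
    show w.1 (c + s - s) = _
    simp

theorem missing_act (g : ZMod k → Equiv.Perm V) (hg : ∀ c x, typ (g c x) = typ x)
    (e : ZMod k → Bool) (X : Set (Word typ)) (c : ZMod k) :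
    missing typ (act g hg e '' X) c = g c '' missing typ X c := by
  ext v
  constructor
  · rintro ⟨b, hb⟩
    refine ⟨(g c).symm v, ⟨xor b (e c), ?_⟩, by simp⟩
    intro w hw he
    refine hb _ ⟨w, hw, rfl⟩ ?_
    show (g c (w.1 c).1, xor (w.1 c).2 (e c)) = (v, b)
    rw [he]
    simp
  · rintro ⟨u, ⟨b, hb⟩, rfl⟩
    refine ⟨xor b (e c), ?_⟩
    rintro _ ⟨w, hw, rfl⟩ he
    refine hb w hw ?_
    have he' : (g c (w.1 c).1, xor (w.1 c).2 (e c)) = (g c u, xor b (e c)) := he
    rw [Prod.mk.injEq] at he'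
    apply Prod.ext
    · exact (g c).injective he'.1
    · have := congrArg (fun x => xor x (e c)) he'.2
      simpa using this

theorem missing_rot (s : ZMod k) (X : Set (Word typ)) (c : ZMod k) :
    missing typ (rot s '' X) c = missing typ X (c + s) := by
  ext v
  constructor
  · rintro ⟨b, hb⟩
    exact ⟨b, fun w hw he => hb _ ⟨w, hw, rfl⟩ he⟩
  · rintro ⟨b, hb⟩
    refine ⟨b, ?_⟩
    rintro _ ⟨w, hw, rfl⟩ he
    exact hb w hw he

end SYM128

open SYM128

theorem bigF_mono {V : Type} {k : ℕ} (typ : V → ZMod k) (S : Set V → Prop)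
    (hdown : ∀ A B : Set V, A ⊆ B → S B → S A) {X Y : Set (Word typ)} (h : X ⊆ Y) :
    BigF typ S X → BigF typ S Y := by
  rintro ⟨c, hc⟩
  exact ⟨c, hdown _ _ (missing_anti h c) hc⟩

theorem bigF_empty {V : Type} {k : ℕ} (typ : V → ZMod k) (S : Set V → Prop)
    (hdown : ∀ A B : Set V, A ⊆ B → S B → S A) (hfib : ∀ i, ¬ S {v | typ v = i}) :
    ¬ BigF typ S ∅ := by
  rintro ⟨c, hc⟩
  refine hfib 0 (hdown _ _ ?_ hc)
  intro v _
  exact ⟨true, fun w hw => absurd hw (Set.notMem_empty w)⟩

theorem bigF_univ {V : Type} {k : ℕ} [NeZero k] (typ : V → ZMod k) (S : Set V → Prop)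
    (hsurj : Function.Surjective typ) (hempty : S ∅) : BigF typ S Set.univ := by
  classical
  refine ⟨0, ?_⟩
  have h : missing typ (Set.univ : Set (Word typ)) 0 = ∅ := by
    rw [Set.eq_empty_iff_forall_notMem]
    rintro v ⟨e, he⟩
    choose r hr using hsurj
    have hw : ∀ c : ZMod k, typ ((if c = 0 then (v, e) else (r (c + typ v), e) : V × Bool)).1
        = c + typ ((if (0 : ZMod k) = 0 then (v, e) else (r (0 + typ v), e) : V × Bool)).1 := by
      intro c
      by_cases hc : c = 0
      · subst hc; simp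
      · simp [hc, hr]
    exact he ⟨fun c => if c = 0 then (v, e) else (r (c + typ v), e), hw⟩ (Set.mem_univ _) (by simp)
  rw [h]
  exact hempty

theorem bigF_trans {V : Type} {k : ℕ} [NeZero k] (typ : V → ZMod k) (S : Set V → Prop)
    (htr : ∀ u v, typ u = typ v → ∃ g : Equiv.Perm V, g u = v ∧ (∀ x, typ (g x) = typ x) ∧
      ∀ A : Set V, S (g '' A) ↔ S A) (w w' : Word typ) :
    ∃ σ : Equiv.Perm (Word typ), σ w = w' ∧ ∀ X : Set (Word typ),
      BigF typ S (σ '' X) ↔ BigF typ S X := by
  classical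
  let s : ZMod k := typ (w'.1 0).1 - typ (w.1 0).1
  have hty : ∀ c, typ ((rot s w).1 c).1 = typ (w'.1 c).1 := by
    intro c
    show typ (w.1 (c + s)).1 = _
    rw [w.2, w'.2]
    simp only [s]
    ring
  choose g hg1 hg2 hg3 using fun c => htr ((rot s w).1 c).1 (w'.1 c).1 (hty c)
  let e : ZMod k → Bool := fun c => xor ((rot s w).1 c).2 (w'.1 c).2
  refine ⟨(rot s).trans (act g hg2 e), ?_, ?_⟩
  · apply Subtype.ext
    funext c
    show (g c ((rot s w).1 c).1, xor ((rot s w).1 c).2 (e c)) = w'.1 c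
    apply Prod.ext
    · exact hg1 c
    · show xor ((rot s w).1 c).2 (xor ((rot s w).1 c).2 (w'.1 c).2) = (w'.1 c).2
      simp
  · intro X
    have hX : ((rot s).trans (act g hg2 e)) '' X = act g hg2 e '' (rot s '' X) := by
      rw [Set.image_image]
      rfl
    rw [hX]
    constructor
    · rintro ⟨c, hc⟩
      rw [missing_act, hg3, missing_rot] at hc
      exact ⟨c + s, hc⟩
    · rintro ⟨c, hc⟩
      refine ⟨c - s, ?_⟩
      rw [missing_act, hg3, missing_rot]
      simpa using hc

end Pool.Agent.H571R3
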