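import Pool.Agent.H571R3.Defs
import Pool.Agent.H128R2.Evas.Win

set_option autoImplicit false

/-! Task WT: a winning strategy gives a decision tree leaving one variable unqueried. helper128. -/

namespace Pool.Agent.H571R3

theorem Win.toEvas {W : Type} {f : Set W → Prop} {T N : Set W} (h : Win f T N) :
    Pool.Agent.H128R2.Evas.Win f T N := by
  induction h with
  | irrel T N w hT hN h => exact .base T N w hT hN h
  | query T N w hT hN _ _ ih1 ih2 => exact .step T N w hT hN ih1 ih2

theorem Win.ofEvas {W : Type} {f : Set W → Prop} {T N : Set W}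
    (h : Pool.Agent.H128R2.Evas.Win f T N) : Win f T N := by
  induction h with
  | base T N w hT hN h => exact .irrel T N w hT hN h
  | step T N w hT hN _ _ ih1 ih2 => exact .query T N w hT hN ih1 ih2

theorem win_tree {W : Type} [Fintype W] (f : Set W → Prop) (h : Win f ∅ ∅) :
    ∃ t : Pool.Agent.H128R2.Evas.DT W,
      (∀ x : W → Bool, (t.eval x = true ↔ f {w | x w = true})) ∧
      t.depth + 1 ≤ Fintype.card W := by
  classical
  obtain ⟨t, ht, hd⟩ := h.toEvas.tree
  refine ⟨t, fun x => ht x (Set.empty_subset _) (Set.disjoint_empty _), ?_⟩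
  have : ((∅ ∪ ∅ : Set W)ᶜ).ncard = Fintype.card W := by
    simp [Set.ncard_univ]
  rwa [this] at hd

end Pool.Agent.H571R3
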