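import Pool.Agent.H571R3.Red
import Pool.Agent.H571R3.Sym128
import Pool.Agent.H571R3.WinTree
import Pool.Agent.H571R3.NepWin128
import Pool.Agent.H571R3.Glued128
import Pool.Agent.H571R3.Orb
import Pool.Agent.H571R3.Cert
import Pool.Agent.H571R3.Aut885
import Pool.Agent.H128R2.Evas.Final

set_option autoImplicit false

namespace Pool.Agent.H571R3.Asm

open Pool.Agent.H571R3 Pool.Agent.H571R3.AUT885

theorem KK_down (s : Finset (Fin 13)) (hs : s ∈ KK) (t : Finset (Fin 13)) (hts : t ⊆ s) :
    t ∈ KK := by
  obtain ⟨m, hm, h⟩ := hs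
  exact ⟨m, hm, fun i hi => h i (hts hi)⟩

theorem cc_symm {n : ℕ} (K : Set (Finset (Fin n))) (p q : PP K) (h : cc K p q) : cc K q p := by
  obtain ⟨h1, h2⟩ := h
  refine ⟨h1.symm, ?_⟩
  rcases h2 with h2 | h2 | h2
  · exact Or.inl h2.symm
  · exact Or.inr (Or.inr h2)
  · exact Or.inr (Or.inl h2)

instance finPP : Finite (PP KK) :=
  inferInstanceAs (Finite {p : Bool × Finset (Fin 13) // p.2.Nonempty ∧ (p.2 ∈ KK → p.1 = false)})

instance nePP : Nonempty (PP KK) :=
  ⟨⟨(false, {0}), by simp, fun _ => rfl⟩⟩

instance finWord {V : Type} [Finite V] {k : ℕ} [NeZero k] (typ : V → ZMod k) :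
    Finite (Word typ) := by
  haveI : Finite (ZMod k) := inferInstance
  exact inferInstanceAs
    (Finite {p : ZMod k → V × Bool // ∀ c, typ (p c).1 = c + typ (p 0).1})

/-- There are a finite type of variables and a non-constant monotone transitive Boolean function on
it which is not evasive. -/
theorem exists_nonevasive : ∃ (W : Type) (_ : Fintype W) (f : (W → Bool) → Bool)
    (T : Pool.Agent.H128R2.Evas.DT W), Monotone f ∧ (∃ x y, f x ≠ f y) ∧
    (∀ i j : W, ∃ σ : Equiv.Perm W, σ i = j ∧ ∀ x : W → Bool, f (x ∘ σ) = f x) ∧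
    (∀ x, T.eval x = f x) ∧ T.depth + 1 ≤ Fintype.card W := by
  classical
  obtain ⟨k, hk, typ, hsurj, hfib, htr⟩ := orbit_types (cc KK) pp_auto
  have hdown : ∀ A B : Set (PP KK), A ⊆ B → B.Pairwise (cc KK) → A.Pairwise (cc KK) :=
    fun A B hAB hB => hB.mono hAB
  have hwin : Win (fun A : Set (PP KK) => A.Pairwise (cc KK)) ∅ ∅ :=
    nep_win (cc KK) (cc_symm KK) (nep_glued (by norm_num) KK KK_down coll_KK)
  have hred := reduction typ (fun A : Set (PP KK) => A.Pairwise (cc KK)) hsurj hdown hfib hwin
  haveI : Fintype (Word typ) := Fintype.ofFinite _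
  obtain ⟨t, ht, hdep⟩ := win_tree (BigF typ fun A : Set (PP KK) => A.Pairwise (cc KK)) hred
  refine ⟨Word typ, inferInstance,
    fun x => decide (BigF typ (fun A : Set (PP KK) => A.Pairwise (cc KK)) {w | x w = true}),
    t, ?_, ?_, ?_, ?_, hdep⟩
  · intro x y hxy
    by_cases h : BigF typ (fun A : Set (PP KK) => A.Pairwise (cc KK)) {w | x w = true}
    · have h2 : BigF typ (fun A : Set (PP KK) => A.Pairwise (cc KK)) {w | y w = true} := by
        refine bigF_mono typ _ hdown ?_ h
        intro w hw
        have h3 := hxy w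
        have hw' : x w = true := hw
        rw [hw'] at h3
        exact top_le_iff.mp h3
      simp only [h, h2, decide_true, le_refl]
    · simp only [h, decide_false]
      exact bot_le
  · refine ⟨fun _ => true, fun _ => false, ?_⟩
    have h1 : BigF typ (fun A : Set (PP KK) => A.Pairwise (cc KK))
        {w | (fun _ : Word typ => true) w = true} := by
      have : {w : Word typ | (fun _ : Word typ => true) w = true} = Set.univ := by
        ext w; simp
      rw [this]
      exact bigF_univ typ _ hsurj (Set.pairwise_empty _)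
    have h2 : ¬ BigF typ (fun A : Set (PP KK) => A.Pairwise (cc KK))
        {w | (fun _ : Word typ => false) w = true} := by
      have : {w : Word typ | (fun _ : Word typ => false) w = true} = ∅ := by
        ext w; simp
      rw [this]
      exact bigF_empty typ _ hdown hfib
    intro h3
    have h4 := (decide_eq_true h1).symm.trans (h3.trans (decide_eq_false h2))
    exact Bool.noConfusion h4
  · intro w w'
    obtain ⟨σ, hσ, h⟩ := bigF_trans typ (fun A : Set (PP KK) => A.Pairwise (cc KK)) htr w w'
    refine ⟨σ, hσ, fun x => ?_⟩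
    have himg : σ '' {u | (x ∘ σ) u = true} = {u | x u = true} := by
      ext u
      constructor
      · rintro ⟨v, hv, rfl⟩
        exact hv
      · intro hu
        refine ⟨σ.symm u, ?_, σ.apply_symm_apply u⟩
        show x (σ (σ.symm u)) = true
        rw [σ.apply_symm_apply]
        exact hu
    have h3 := h {u | (x ∘ σ) u = true}
    rw [himg] at h3
    exact (decide_eq_decide.mpr h3.symm)
  · intro x
    have h1 := ht x
    by_cases h : BigF typ (fun A : Set (PP KK) => A.Pairwise (cc KK)) {w | x w = true}
    · rw [h1.mpr h]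
      exact (decide_eq_true h).symm
    · cases h4 : t.eval x with
      | false => exact (decide_eq_false h).symm
      | true => exact absurd (h1.mp h4) h

end Pool.Agent.H571R3.Asm
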