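import Mathlib

set_option autoImplicit false

/-! Definitions for the refutation of the (weak) evasiveness conjecture, MP_d4e2f9_lc / S10606.
helper571 and team. -/

namespace Pool.Agent.H571R3

/-- `Win f T N`: knowing that the elements of `T` are present and those of `N` are absent, one can
ask membership queries so that on every branch at least one element stays unasked and irrelevant. -/
inductive Win {W : Type} (f : Set W → Prop) : Set W → Set W → Prop
  | irrel (T N : Set W) (w : W) (hT : w ∉ T) (hN : w ∉ N)
      (h : ∀ X : Set W, T ⊆ X → Disjoint X N → (f (insert w X) ↔ f (X \ {w}))) : Win f T N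
  | query (T N : Set W) (w : W) (hT : w ∉ T) (hN : w ∉ N) :
      Win f (insert w T) N → Win f T (insert w N) → Win f T N

section words

variable {V : Type} {k : ℕ} (typ : V → ZMod k) (S : Set V → Prop)

/-- Words: one letter `(v, e)` (a vertex with a clone bit) for every coordinate `c`, the type of the
letter at coordinate `c` is `c + s` where `s` is the type of the letter at coordinate `0`. -/
def Word : Type := {p : ZMod k → V × Bool // ∀ c, typ (p c).1 = c + typ (p 0).1}

/-- the vertices one of whose clones does not occur at coordinate `c` of a word in `X`. -/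
def missing (X : Set (Word typ)) (c : ZMod k) : Set V :=
  {v | ∃ e : Bool, ∀ w ∈ X, w.1 c ≠ (v, e)}

/-- The transitive function. -/
def BigF (X : Set (Word typ)) : Prop := ∃ c, S (missing typ X c)

end words

section graph

variable {P : Type} (c : P → P → Prop)

/-- nonevasiveness of the clique complex of `c` on the vertex set `L`. -/
inductive NEP : Set P → Prop
  | cone (L : Set P) (x : P) (hx : x ∈ L) (h : ∀ y ∈ L, y ≠ x → c x y) : NEP L
  | del (L : Set P) (x : P) (hx : x ∈ L) :
      NEP {y | y ∈ L ∧ y ≠ x ∧ c x y} → NEP (L \ {x}) → NEP L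

end graph

section complex

variable {n : ℕ}

/-- `Coll L K`: the family `L` of subsets of `Fin n` collapses to `K` by removing free pairs
`s, insert v s`. -/
inductive Coll : Set (Finset (Fin n)) → Set (Finset (Fin n)) → Prop
  | refl (L : Set (Finset (Fin n))) : Coll L L
  | step (L K : Set (Finset (Fin n))) (s : Finset (Fin n)) (v : Fin n) (hv : v ∉ s)
      (hne : s.Nonempty) (hs : s ∈ L) (ht : insert v s ∈ L)
      (hfree : ∀ t ∈ L, s ⊆ t → t ≠ s → t = insert v s) :
      Coll (L \ {s, insert v s}) K → Coll L K

/-- The vertices of the glued poset: all nonempty sets, those outside `K` in two copies. -/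
def PP (K : Set (Finset (Fin n))) : Type :=
  {p : Bool × Finset (Fin n) // p.2.Nonempty ∧ (p.2 ∈ K → p.1 = false)}

/-- Comparability in the glued poset. -/
def cc (K : Set (Finset (Fin n))) (p q : PP K) : Prop :=
  (p.1.2 ⊆ q.1.2 ∨ q.1.2 ⊆ p.1.2) ∧ (p.1.1 = q.1.1 ∨ p.1.2 ∈ K ∨ q.1.2 ∈ K)

end complex

/-- The 60 facets of the suspension of the A5-acyclic 2-complex, as bitmasks
(bits 0-4 points, 5-10 pentagon centres, 11, 12 suspension points; labelling of helper472). -/
def facets : List ℕ :=
  [2083, 2085, 2090, 2100, 2104, 2115, 2121, 2124, 2130, 2132, 2179, 2182, 2188, 2193, 2200,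
   2309, 2310, 2313, 2322, 2328, 2565, 2570, 2572, 2577, 2578, 3078, 3081, 3082, 3089, 3092,
   4131, 4133, 4138, 4148, 4152, 4163, 4169, 4172, 4178, 4180, 4227, 4230, 4236, 4241, 4248,
   4357, 4358, 4361, 4370, 4376, 4613, 4618, 4620, 4625, 4626, 5126, 5129, 5130, 5137, 5140]

/-- The complex `K` (including the empty set): all sets contained in a facet. -/
def KK : Set (Finset (Fin 13)) :=
  {s | ∃ m ∈ facets, ∀ i ∈ s, m.testBit i.val = true}

/-- A 3-cycle of the five points with its action on the six pentagons. -/
def g3 : Equiv.Perm (Fin 13) where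
  toFun := ![1, 2, 0, 3, 4, 7, 10, 8, 5, 6, 9, 11, 12]
  invFun := ![2, 0, 1, 3, 4, 8, 9, 5, 7, 10, 6, 11, 12]
  left_inv := by decide
  right_inv := by decide

/-- A 5-cycle of the five points with its action on the six pentagons. -/
def g5 : Equiv.Perm (Fin 13) where
  toFun := ![1, 2, 3, 4, 0, 10, 8, 7, 9, 5, 6, 11, 12]
  invFun := ![4, 0, 1, 2, 3, 9, 10, 7, 6, 8, 5, 11, 12]
  left_inv := by decide
  right_inv := by decide

/-- The exchange of the two suspension points. -/
def gsw : Equiv.Perm (Fin 13) := Equiv.swap 11 12

end Pool.Agent.H571R3
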