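import Pool.Agent.H571R3.Defs

set_option autoImplicit false

/-! Task KSYM (helper521): the complex `KK` is invariant under `g3`, `g5`, `gsw` and has no nonempty
face fixed by all three. -/

namespace Pool.Agent.H571R3

private theorem map_mem (g : Fin 13 → Fin 13)
    (h : ∀ m ∈ facets, ∃ m' ∈ facets, ∀ i : Fin 13, m.testBit i.val = true →
      m'.testBit (g i).val = true) (e : Equiv.Perm (Fin 13)) (he : ∀ i, e i = g i)
    (s : Finset (Fin 13)) (hs : s ∈ KK) : s.map e.toEmbedding ∈ KK := by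
  obtain ⟨m, hm, hi⟩ := hs
  obtain ⟨m', hm', h'⟩ := h m hm
  refine ⟨m', hm', ?_⟩
  intro j hj
  rw [Finset.mem_map] at hj
  obtain ⟨i, his, rfl⟩ := hj
  have := h' i (hi i his)
  rw [← he i] at this
  exact this

private theorem sym_of (g : Equiv.Perm (Fin 13))
    (h : ∀ m ∈ facets, ∃ m' ∈ facets, ∀ i : Fin 13, m.testBit i.val = true →
      m'.testBit (g i).val = true)
    (h' : ∀ m ∈ facets, ∃ m' ∈ facets, ∀ i : Fin 13, m.testBit i.val = true →
      m'.testBit (g.symm i).val = true)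
    (s : Finset (Fin 13)) : s.map g.toEmbedding ∈ KK ↔ s ∈ KK := by
  constructor
  · intro hs
    have := map_mem g.symm h' g.symm (fun _ => rfl) _ hs
    have e : (s.map g.toEmbedding).map g.symm.toEmbedding = s := by
      ext x
      simp
    rwa [e] at this
  · exact map_mem g h g (fun _ => rfl) s

theorem KK_sym (g : Equiv.Perm (Fin 13)) (hg : g = g3 ∨ g = g5 ∨ g = gsw)
    (s : Finset (Fin 13)) : s.map g.toEmbedding ∈ KK ↔ s ∈ KK := by
  rcases hg with rfl | rfl | rfl
  · exact sym_of g3 (by decide +kernel) (by decide +kernel) s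
  · exact sym_of g5 (by decide +kernel) (by decide +kernel) s
  · exact sym_of gsw (by decide +kernel) (by decide +kernel) s

private theorem inv_of (g : Equiv.Perm (Fin 13)) (s : Finset (Fin 13))
    (h : s.map g.toEmbedding = s) {i : Fin 13} (hi : i ∈ s) : g i ∈ s := by
  have : g i ∈ s.map g.toEmbedding := by
    rw [Finset.mem_map]
    exact ⟨i, hi, rfl⟩
  rwa [h] at this

theorem KK_nofix (s : Finset (Fin 13)) (hs : s ∈ KK) (hne : s.Nonempty) :
    ∃ g : Equiv.Perm (Fin 13), (g = g3 ∨ g = g5 ∨ g = gsw) ∧ s.map g.toEmbedding ≠ s := by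
  by_contra hcon
  push Not at hcon
  have h3 := hcon g3 (Or.inl rfl)
  have h5 := hcon g5 (Or.inr (Or.inl rfl))
  have hsw := hcon gsw (Or.inr (Or.inr rfl))
  obtain ⟨m, hm, hi⟩ := hs
  obtain ⟨x, hx⟩ := hne
  have c3 : ∀ i, i ∈ s → g3 i ∈ s := fun i h => inv_of g3 s h3 h
  have c5 : ∀ i, i ∈ s → g5 i ∈ s := fun i h => inv_of g5 s h5 h
  have cs : ∀ i, i ∈ s → gsw i ∈ s := fun i h => inv_of gsw s hsw h
  have hiter : ∀ (f : Fin 13 → Fin 13), (∀ i, i ∈ s → f i ∈ s) → ∀ (a : ℕ) (i : Fin 13),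
      i ∈ s → f^[a] i ∈ s := by
    intro f hf a
    induction a with
    | zero => intro i h; exact h
    | succ a ih => intro i h; exact ih _ (hf i h)
  have key : ∀ m ∈ facets, ∀ x : Fin 13, ∃ a : Fin 5, ∃ b : Fin 3, ∃ c : Fin 5, ∃ d : Fin 2,
      m.testBit (g5^[a.val] (g3^[b.val] (g5^[c.val] (gsw^[d.val] x)))).val = false := by
    decide +kernel
  obtain ⟨a, b, c, d, h⟩ := key m hm x
  have hmem : (g5^[a.val] (g3^[b.val] (g5^[c.val] (gsw^[d.val] x)))) ∈ s :=
    hiter _ c5 _ _ (hiter _ c3 _ _ (hiter _ c5 _ _ (hiter _ cs _ _ hx)))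
  have := hi _ hmem
  rw [h] at this
  exact Bool.false_ne_true this

end Pool.Agent.H571R3
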