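import Pool.Agent.H571R3.Defs

set_option autoImplicit false

/-! The reduction theorem: a nonevasive complex on a typed vertex set without monochromatic full
type as a face gives a nonevasive function on words.  (helper571) -/

namespace Pool.Agent.H571R3

open Set

/-- Search through a set `A` for a present element. -/
theorem win_search {W : Type} [Finite W] (f : Set W → Prop) (A : Set W) (T : Set W) :
    ∀ (m : ℕ) (N : Set W), (A \ (T ∪ N)).ncard = m →
    (∀ w ∈ A, w ∉ T → w ∉ N → ∀ N', N ⊆ N' → N' ⊆ N ∪ (A \ T) → w ∉ N' →
      Win f (insert w T) N') →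
    (Win f T (N ∪ (A \ T))) → Win f T N := by
  intro m
  induction m with
  | zero =>
    intro N hm _ h2
    have h0 : A \ (T ∪ N) = ∅ := by
      rwa [Set.ncard_eq_zero (Set.toFinite _)] at hm
    have : N ∪ (A \ T) = N := by
      apply Set.union_eq_left.mpr
      intro w hw
      by_contra hN
      have : w ∈ A \ (T ∪ N) := ⟨hw.1, fun h => h.elim hw.2 hN⟩
      rw [h0] at this
      exact this
    rwa [this] at h2
  | succ m ih =>
    intro N hm h1 h2
    have hne : (A \ (T ∪ N)).Nonempty := by
      rw [← Set.ncard_pos (Set.toFinite _)]; omega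
    obtain ⟨w, hwA, hw⟩ := hne
    have hwT : w ∉ T := fun h => hw (Or.inl h)
    have hwN : w ∉ N := fun h => hw (Or.inr h)
    refine Win.query T N w hwT hwN (h1 w hwA hwT hwN N le_rfl subset_union_left hwN) ?_
    apply ih (insert w N)
    · have e : A \ (T ∪ insert w N) = (A \ (T ∪ N)) \ {w} := by
        ext y; simp only [mem_sdiff, mem_union, mem_insert_iff, mem_singleton_iff]; tauto
      rw [e, Set.ncard_sdiff_singleton_of_mem (show w ∈ A \ (T ∪ N) from ⟨hwA, hw⟩), hm]; rfl
    · intro w' hw'A hw'T hw'N N' hN1 hN2 hw'
      apply h1 w' hw'A hw'T (fun h => hw'N (Or.inr h)) N' ((subset_insert _ _).trans hN1) _ hw'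
      intro y hy
      rcases hN2 hy with h | h
      · rcases h with rfl | h
        · exact Or.inr ⟨hwA, hwT⟩
        · exact Or.inl h
      · exact Or.inr h
    · have e : insert w N ∪ (A \ T) = N ∪ (A \ T) := by
        ext y; simp only [mem_sdiff, mem_union, mem_insert_iff]
        constructor
        · rintro ((rfl | h) | h)
          · exact Or.inr ⟨hwA, hwT⟩
          · exact Or.inl h
          · exact Or.inr h
        · rintro (h | h)
          · exact Or.inl (Or.inr h)
          · exact Or.inr h
      rwa [e]

variable {V : Type} {k : ℕ} (typ : V → ZMod k) (S : Set V → Prop)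

theorem Word.ext' {w w' : Word typ} (h : ∀ c, w.1 c = w'.1 c) : w = w' :=
  Subtype.ext (funext h)

/-- block of a word -/
def blk (w : Word typ) : ZMod k := typ (w.1 0).1

theorem typ_letter (w : Word typ) (c : ZMod k) : typ (w.1 c).1 = c + blk typ w := w.2 c

theorem setAt_aux (w : Word typ) (c : ZMod k) (u : V × Bool) (h : typ u.1 = typ (w.1 c).1) :
    ∀ d, typ ((Function.update w.1 c u : ZMod k → V × Bool) d).1 =
      d + typ ((Function.update w.1 c u : ZMod k → V × Bool) 0).1 := by
  intro d
  have h0 : typ ((Function.update w.1 c u : ZMod k → V × Bool) 0).1 = typ (w.1 0).1 := by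
    by_cases hc : (0 : ZMod k) = c
    · subst hc; rw [Function.update_self]; exact h
    · rw [Function.update_of_ne hc]
  rw [h0]
  by_cases hd : d = c
  · subst hd; rw [Function.update_self, h]; exact w.2 d
  · rw [Function.update_of_ne hd]; exact w.2 d

open Classical in
/-- change one letter -/
noncomputable def setAt (w : Word typ) (c : ZMod k) (u : V × Bool) : Word typ :=
  if h : typ u.1 = typ (w.1 c).1 then ⟨Function.update w.1 c u, setAt_aux typ w c u h⟩ else w

theorem setAt_same (w : Word typ) (c : ZMod k) (u : V × Bool) (h : typ u.1 = typ (w.1 c).1) :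
    (setAt typ w c u).1 c = u := by
  unfold setAt; rw [dif_pos h]; exact Function.update_self _ _ _

theorem setAt_ne (w : Word typ) (c : ZMod k) (u : V × Bool) (d : ZMod k) (hd : d ≠ c) :
    (setAt typ w c u).1 d = w.1 d := by
  unfold setAt
  split_ifs with h
  · exact Function.update_of_ne hd _ _
  · rfl

theorem blk_setAt (w : Word typ) (c : ZMod k) (u : V × Bool) (h : typ u.1 = typ (w.1 c).1) :
    blk typ (setAt typ w c u) = blk typ w := by
  have h1 := typ_letter typ (setAt typ w c u) c
  rw [setAt_same typ w c u h, h, typ_letter typ w c] at h1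
  exact (add_left_cancel h1).symm

theorem missing_anti {X Y : Set (Word typ)} (h : X ⊆ Y) (c : ZMod k) :
    missing typ Y c ⊆ missing typ X c := by
  rintro v ⟨e, he⟩
  exact ⟨e, fun w hw => he w (h hw)⟩

theorem irrel_core {T N : Set (Word typ)} (x z : Word typ) (c : ZMod k) (hx : x ∈ T)
    (hz : z ∉ T) (hzN : z ∉ N) (hag : ∀ d, d ≠ c → z.1 d = x.1 d)
    (h : ∀ X : Set (Word typ), T ⊆ X → Disjoint X N →
      (S (missing typ (insert z X) c) ↔ S (missing typ (X \ {z}) c))) :
    Win (BigF typ S) T N := by
  refine Win.irrel T N z hz hzN (fun X hTX hXN => ?_)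
  have hxz : x ≠ z := fun e => hz (e ▸ hx)
  have key : ∀ d, d ≠ c → missing typ (insert z X) d = missing typ (X \ {z}) d := by
    intro d hd
    apply Subset.antisymm
    · exact missing_anti typ (sdiff_subset.trans (subset_insert _ _)) d
    · rintro v ⟨e, he⟩
      refine ⟨e, fun w hw => ?_⟩
      by_cases hwz : w = z
      · subst hwz
        rw [hag d hd]
        exact he x ⟨hTX hx, hxz⟩
      · rcases hw with h | h
        · exact absurd h hwz
        · exact he w ⟨h, hwz⟩
  constructor
  · rintro ⟨d, hd⟩
    by_cases hdc : d = c
    · subst hdc; exact ⟨d, (h X hTX hXN).mp hd⟩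
    · exact ⟨d, by rw [← key d hdc]; exact hd⟩
  · rintro ⟨d, hd⟩
    by_cases hdc : d = c
    · subst hdc; exact ⟨d, (h X hTX hXN).mpr hd⟩
    · exact ⟨d, by rw [key d hdc]; exact hd⟩

/-- irrelevance because the other clone is missing anyway. -/
theorem irrel_partner {T N : Set (Word typ)} (x z : Word typ) (c : ZMod k) (hx : x ∈ T)
    (hz : z ∉ T) (hzN : z ∉ N) (hag : ∀ d, d ≠ c → z.1 d = x.1 d) (v : V) (e : Bool)
    (hzc : z.1 c = (v, e)) (hp : ∀ w : Word typ, w.1 c = (v, !e) → w ∈ N) :
    Win (BigF typ S) T N := by
  refine irrel_core typ S x z c hx hz hzN hag (fun X hTX hXN => ?_)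
  have : missing typ (insert z X) c = missing typ (X \ {z}) c := by
    apply Subset.antisymm
    · exact missing_anti typ (sdiff_subset.trans (subset_insert _ _)) c
    · rintro v' ⟨e', he'⟩
      by_cases hv : v' = v
      · subst hv
        refine ⟨!e, fun w hw hwc => ?_⟩
        have hwN := hp w hwc
        rcases hw with h | h
        · exact hzN (h ▸ hwN)
        · exact (Set.disjoint_left.mp hXN h) hwN
      · refine ⟨e', fun w hw hwc => ?_⟩
        by_cases hwz : w = z
        · subst hwz
          rw [hzc] at hwc
          exact hv (congrArg Prod.fst hwc).symm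
        · rcases hw with h | h
          · exact hwz h
          · exact he' w ⟨h, hwz⟩ hwc
  rw [this]

/-- irrelevance because the letter is covered by another present word. -/
theorem irrel_covered {T N : Set (Word typ)} (x z : Word typ) (c : ZMod k) (hx : x ∈ T)
    (hz : z ∉ T) (hzN : z ∉ N) (hag : ∀ d, d ≠ c → z.1 d = x.1 d) (y : Word typ) (hy : y ∈ T)
    (hyc : y.1 c = z.1 c) : Win (BigF typ S) T N := by
  refine irrel_core typ S x z c hx hz hzN hag (fun X hTX hXN => ?_)
  have hyz : y ≠ z := fun e => hz (e ▸ hy)
  have : missing typ (insert z X) c = missing typ (X \ {z}) c := by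
    apply Subset.antisymm
    · exact missing_anti typ (sdiff_subset.trans (subset_insert _ _)) c
    · rintro v' ⟨e', he'⟩
      refine ⟨e', fun w hw hwc => ?_⟩
      by_cases hwz : w = z
      · subst hwz
        exact he' y ⟨hTX hy, hyz⟩ (hyc.trans hwc)
      · rcases hw with h | h
        · exact hwz h
        · exact he' w ⟨h, hwz⟩ hwc
  rw [this]

/-- irrelevance because the coordinate is dead. -/
theorem irrel_dead (hdown : ∀ A B : Set V, A ⊆ B → S B → S A)
    (hfib : ∀ i, ¬ S {v | typ v = i}) {T N : Set (Word typ)} (x z : Word typ) (c : ZMod k)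
    (hx : x ∈ T) (hz : z ∉ T) (hzN : z ∉ N) (hag : ∀ d, d ≠ c → z.1 d = x.1 d) (i : ZMod k)
    (hi : ∀ v, typ v = i → ∃ e : Bool, ∀ w : Word typ, w.1 c = (v, e) → w ∈ N) :
    Win (BigF typ S) T N := by
  refine irrel_core typ S x z c hx hz hzN hag (fun X hTX hXN => ?_)
  have h1 : {v | typ v = i} ⊆ missing typ (insert z X) c := by
    intro v hv
    obtain ⟨e, he⟩ := hi v hv
    refine ⟨e, fun w hw hwc => ?_⟩
    rcases hw with h | h
    · exact hzN (h ▸ he w hwc)
    · exact (Set.disjoint_left.mp hXN h) (he w hwc)
  have h2 : {v | typ v = i} ⊆ missing typ (X \ {z}) c :=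
    h1.trans (missing_anti typ (sdiff_subset.trans (subset_insert _ _)) c)
  constructor
  · intro h; exact absurd (hdown _ _ h1 h) (hfib i)
  · intro h; exact absurd (hdown _ _ h2 h) (hfib i)

section fin
variable [Finite (Word typ)]

/-- ask for the status of a letter. -/
theorem letter_query {T N : Set (Word typ)} (x z : Word typ) (c : ZMod k) (hx : x ∈ T)
    (hz : z ∉ T) (hzN : z ∉ N) (hag : ∀ d, d ≠ c → z.1 d = x.1 d)
    (h : ∀ T' N' : Set (Word typ), T ⊆ T' → N ⊆ N' →
      (∀ w ∈ T', w ∈ T ∨ w.1 c = z.1 c) → (∀ w ∈ N', w ∈ N ∨ w.1 c = z.1 c) →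
      ((∃ w ∈ T', w.1 c = z.1 c) ∨ (∀ w : Word typ, w.1 c = z.1 c → w ∈ N')) →
      Win (BigF typ S) T' N') :
    Win (BigF typ S) T N := by
  by_cases hcov : ∃ w ∈ T, w.1 c = z.1 c
  · obtain ⟨y, hy, hyc⟩ := hcov
    exact irrel_covered typ S x z c hx hz hzN hag y hy hyc
  · push Not at hcov
    refine win_search (BigF typ S) {w | w.1 c = z.1 c ∧ w ≠ z} T _ N rfl ?_ ?_
    · intro w hwA hwT hwN N' hN1 hN2 hwN'
      have hzN' : z ∉ N' := by
        intro hzz
        rcases hN2 hzz with h | h
        · exact hzN h
        · exact h.1.2 rfl
      refine irrel_covered typ S x z c (Or.inr hx) ?_ hzN' hag w (Or.inl rfl) hwA.1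
      rintro (h | h)
      · exact hwA.2 h.symm
      · exact hz h
    · have hzN' : z ∉ N ∪ ({w | w.1 c = z.1 c ∧ w ≠ z} \ T) := by
        rintro (h | h)
        · exact hzN h
        · exact h.1.2 rfl
      refine Win.query _ _ z hz hzN' ?_ ?_
      · apply h
        · exact subset_insert _ _
        · exact subset_union_left
        · rintro w (h | h)
          · exact Or.inr (by rw [h])
          · exact Or.inl h
        · rintro w (h | h)
          · exact Or.inl h
          · exact Or.inr h.1.1
        · exact Or.inl ⟨z, Or.inl rfl, rfl⟩
      · apply h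
        · exact le_rfl
        · exact subset_union_left.trans (subset_insert _ _)
        · intro w hw; exact Or.inl hw
        · rintro w (h | h | h)
          · exact Or.inr (by rw [h])
          · exact Or.inl h
          · exact Or.inr h.1.1
        · right
          intro w hw
          by_cases hwz : w = z
          · exact Or.inl hwz
          · exact Or.inr (Or.inr ⟨⟨hw, hwz⟩, fun hT => hcov w hT hw⟩)

/-- Phase 3: play the tree of `S` at coordinate `c`. -/
theorem phase3 (c : ZMod k) (x : ZMod k → Word typ) (hx : ∀ i, typ ((x i).1 c).1 = i)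
    (ones zeros : Set V) (hwin : Win S ones zeros) :
    ∀ T N : Set (Word typ), (∀ i, x i ∈ T) →
      (∀ v ∈ ones, ∃ e : Bool, ∀ w : Word typ, w.1 c = (v, e) → w ∈ N) →
      (∀ v ∈ zeros, ∀ e : Bool, ∃ w ∈ T, w.1 c = (v, e)) →
      (∀ v, v ∉ ones → v ∉ zeros → ∀ e : Bool, (v, e) ≠ (x (typ v)).1 c →
        setAt typ (x (typ v)) c (v, e) ∉ T ∧ setAt typ (x (typ v)) c (v, e) ∉ N) →
      Win (BigF typ S) T N := by
  have hty : ∀ (v : V) (e : Bool), typ ((v, e) : V × Bool).1 = typ ((x (typ v)).1 c).1 :=
    fun v e => (hx (typ v)).symm
  induction hwin with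
  | irrel ones zeros v hv1 hv0 h =>
    intro T N hxT hones hzeros hrest
    obtain ⟨e, he⟩ : ∃ e : Bool, ((v, e) : V × Bool) ≠ (x (typ v)).1 c := by
      by_cases h1 : ((v, true) : V × Bool) = (x (typ v)).1 c
      · refine ⟨false, fun h2 => ?_⟩
        have := h1.trans h2.symm
        simp at this
      · exact ⟨true, h1⟩
    obtain ⟨hzT, hzN⟩ := hrest v hv1 hv0 e he
    have hzc := setAt_same typ (x (typ v)) c (v, e) (hty v e)
    refine irrel_core typ S (x (typ v)) _ c (hxT _) hzT hzN
      (fun d hd => setAt_ne typ _ c _ d hd) (fun X hTX hXN => ?_)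
    set z := setAt typ (x (typ v)) c (v, e) with hz
    set A := missing typ (insert z X) c with hA
    set B := missing typ (X \ {z}) c with hB
    have hAB : A ⊆ B := missing_anti typ (sdiff_subset.trans (subset_insert _ _)) c
    have hBA : B ⊆ insert v A := by
      rintro v' ⟨e', he'⟩
      by_cases hv : v' = v
      · exact Or.inl hv
      · right
        refine ⟨e', fun w hw hwc => ?_⟩
        by_cases hwz : w = z
        · subst hwz
          rw [hzc] at hwc
          exact hv (congrArg Prod.fst hwc).symm
        · rcases hw with h | h
          · exact hwz h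
          · exact he' w ⟨h, hwz⟩ hwc
    have hoA : ones ⊆ A := by
      intro v' hv'
      obtain ⟨e', he'⟩ := hones v' hv'
      refine ⟨e', fun w hw hwc => ?_⟩
      rcases hw with h | h
      · exact hzN (h ▸ he' w hwc)
      · exact (Set.disjoint_left.mp hXN h) (he' w hwc)
    have hzB : Disjoint B zeros := by
      rw [Set.disjoint_left]
      rintro v' ⟨e', he'⟩ hv'
      obtain ⟨w, hwT, hwc⟩ := hzeros v' hv' e'
      exact he' w ⟨hTX hwT, fun e => hzT (e ▸ hwT)⟩ hwc
    have hh := h A hoA (Set.disjoint_of_subset_left hAB hzB)
    by_cases hvA : v ∈ A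
    · have : A = B := by
        apply Subset.antisymm hAB
        rwa [Set.insert_eq_of_mem hvA] at hBA
      rw [← this]
    · rw [Set.sdiff_singleton_eq_self hvA] at hh
      by_cases hvB : v ∈ B
      · have : B = insert v A := by
          apply Subset.antisymm hBA
          rintro y (hy | hy)
          · rw [hy]; exact hvB
          · exact hAB hy
        rw [this]; exact hh.symm
      · have : A = B := by
          apply Subset.antisymm hAB
          intro y hy
          rcases hBA hy with h | h
          · exact absurd (h ▸ hy) hvB
          · exact h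
        rw [← this]
  | query ones zeros v hv1 hv0 _ _ ih1 ih0 =>
    intro T N hxT hones hzeros hrest
    -- continuation for asking one clone
    have ask : ∀ (e : Bool) (T N : Set (Word typ)), x (typ v) ∈ T →
        ((v, e) ≠ (x (typ v)).1 c →
          setAt typ (x (typ v)) c (v, e) ∉ T ∧ setAt typ (x (typ v)) c (v, e) ∉ N) →
        (∀ T' N' : Set (Word typ), T ⊆ T' → N ⊆ N' →
          (∀ w ∈ T', w ∈ T ∨ w.1 c = (v, e)) → (∀ w ∈ N', w ∈ N ∨ w.1 c = (v, e)) →
          ((∃ w ∈ T', w.1 c = (v, e)) ∨ (∀ w : Word typ, w.1 c = (v, e) → w ∈ N')) →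
          Win (BigF typ S) T' N') → Win (BigF typ S) T N := by
      intro e T N hxT hz hcont
      by_cases he : (v, e) = (x (typ v)).1 c
      · exact hcont T N le_rfl le_rfl (fun w hw => Or.inl hw) (fun w hw => Or.inl hw)
          (Or.inl ⟨x (typ v), hxT, he.symm⟩)
      · obtain ⟨h1, h2⟩ := hz he
        have hzc := setAt_same typ (x (typ v)) c (v, e) (hty v e)
        refine letter_query typ S (x (typ v)) _ c hxT h1 h2
          (fun d hd => setAt_ne typ _ c _ d hd) ?_
        rw [hzc]
        exact hcont
    -- leaving the other letters untouched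
    have untouched : ∀ (v' : V), v' ≠ v → ∀ (e' e : Bool) (w : Word typ),
        w = setAt typ (x (typ v')) c (v', e') → w.1 c ≠ (v, e) := by
      intro v' hv' e' e w hw hwc
      rw [hw, setAt_same typ _ c _ (hty v' e')] at hwc
      exact hv' (congrArg Prod.fst hwc)
    have other : ∀ (e' e : Bool) , e' ≠ e → ∀ (w : Word typ),
        w = setAt typ (x (typ v)) c (v, e') → w.1 c ≠ (v, e) := by
      intro e' e hee w hw hwc
      rw [hw, setAt_same typ _ c _ (hty v e')] at hwc
      exact hee (congrArg Prod.snd hwc)
    apply ask false T N (hxT _) (hrest v hv1 hv0 false)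
    intro T1 N1 hT1 hN1 hT1' hN1' hst1
    rcases hst1 with hcov | hmiss
    · -- clone `false` is covered: ask the clone `true`
      apply ask true T1 N1 (hT1 (hxT _))
      · intro hne
        obtain ⟨h1, h2⟩ := hrest v hv1 hv0 true hne
        constructor
        · intro h
          rcases hT1' _ h with h | h
          · exact h1 h
          · exact other true false (by decide) _ rfl h
        · intro h
          rcases hN1' _ h with h | h
          · exact h2 h
          · exact other true false (by decide) _ rfl h
      intro T2 N2 hT2 hN2 hT2' hN2' hst2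
      have restprop : ∀ v', v' ∉ ones → v' ∉ zeros → v' ≠ v → ∀ e : Bool,
          (v', e) ≠ (x (typ v')).1 c →
          setAt typ (x (typ v')) c (v', e) ∉ T2 ∧ setAt typ (x (typ v')) c (v', e) ∉ N2 := by
        intro v' hv'1 hv'0 hv'v e hne
        obtain ⟨h1, h2⟩ := hrest v' hv'1 hv'0 e hne
        constructor
        · intro h
          rcases hT2' _ h with h | h
          · rcases hT1' _ h with h | h
            · exact h1 h
            · exact untouched v' hv'v e false _ rfl h
          · exact untouched v' hv'v e true _ rfl h
        · intro h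
          rcases hN2' _ h with h | h
          · rcases hN1' _ h with h | h
            · exact h2 h
            · exact untouched v' hv'v e false _ rfl h
          · exact untouched v' hv'v e true _ rfl h
      rcases hst2 with hcov2 | hmiss2
      · apply ih0 T2 N2 (fun i => hT2 (hT1 (hxT i)))
        · intro v' hv'
          obtain ⟨e, he⟩ := hones v' hv'
          exact ⟨e, fun w hw => hN2 (hN1 (he w hw))⟩
        · rintro v' (rfl | hv') e
          · cases e
            · obtain ⟨w, hw, hwc⟩ := hcov
              exact ⟨w, hT2 hw, hwc⟩
            · exact hcov2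
          · obtain ⟨w, hw, hwc⟩ := hzeros v' hv' e
            exact ⟨w, hT2 (hT1 hw), hwc⟩
        · intro v' h1 h0 e hne
          exact restprop v' h1 (fun h => h0 (Or.inr h)) (fun h => h0 (Or.inl h)) e hne
      · apply ih1 T2 N2 (fun i => hT2 (hT1 (hxT i)))
        · rintro v' (rfl | hv')
          · exact ⟨true, hmiss2⟩
          · obtain ⟨e, he⟩ := hones v' hv'
            exact ⟨e, fun w hw => hN2 (hN1 (he w hw))⟩
        · intro v' hv' e
          obtain ⟨w, hw, hwc⟩ := hzeros v' hv' e
          exact ⟨w, hT2 (hT1 hw), hwc⟩
        · intro v' h1 h0 e hne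
          exact restprop v' (fun h => h1 (Or.inr h)) h0 (fun h => h1 (Or.inl h)) e hne
    · apply ih1 T1 N1 (fun i => hT1 (hxT i))
      · rintro v' (rfl | hv')
        · exact ⟨false, hmiss⟩
        · obtain ⟨e, he⟩ := hones v' hv'
          exact ⟨e, fun w hw => hN1 (he w hw)⟩
      · intro v' hv' e
        obtain ⟨w, hw, hwc⟩ := hzeros v' hv' e
        exact ⟨w, hT1 hw, hwc⟩
      · intro v' h1 h0 e hne
        have hv'v : v' ≠ v := fun h => h1 (Or.inl h)
        obtain ⟨g1, g2⟩ := hrest v' (fun h => h1 (Or.inr h)) h0 e hne
        constructor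
        · intro h
          rcases hT1' _ h with h | h
          · exact g1 h
          · exact untouched v' hv'v e false _ rfl h
        · intro h
          rcases hN1' _ h with h | h
          · exact g2 h
          · exact untouched v' hv'v e false _ rfl h

/-- Phase 2: find for every type a present word with a letter of this type at coordinate `c`. -/
theorem phase2 [Finite (ZMod k)] (hsurj : Function.Surjective typ)
    (hdown : ∀ A B : Set V, A ⊆ B → S B → S A) (hfib : ∀ i, ¬ S {v | typ v = i})
    (hwin : Win S ∅ ∅) (c : ZMod k) :
    ∀ (m : ℕ) (J : Set (ZMod k)) (x : ZMod k → Word typ) (T N : Set (Word typ)),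
      (Jᶜ).ncard = m → J.Nonempty →
      (∀ i ∈ J, x i ∈ T ∧ typ ((x i).1 c).1 = i ∧ ∀ u : V × Bool, typ u.1 = i →
        u ≠ (x i).1 c → setAt typ (x i) c u ∉ T ∧ setAt typ (x i) c u ∉ N) →
      (∀ w ∈ T, typ (w.1 c).1 ∈ J) →
      (∀ w w' : Word typ, typ (w.1 c).1 ∉ J → typ (w'.1 c).1 = typ (w.1 c).1 →
        (∀ d, d ≠ c → w'.1 d = w.1 d) → w ∈ N → w' ∈ N) →
      Win (BigF typ S) T N := by
  intro m
  induction m with
  | zero =>
    intro J x T N hm _ h1 h2 h3
    have hJ : J = Set.univ := by
      rw [Set.ncard_eq_zero (Set.toFinite _)] at hm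
      exact Set.compl_empty_iff.mp hm
    have h1' : ∀ i, x i ∈ T ∧ typ ((x i).1 c).1 = i ∧ ∀ u : V × Bool, typ u.1 = i →
        u ≠ (x i).1 c → setAt typ (x i) c u ∉ T ∧ setAt typ (x i) c u ∉ N :=
      fun i => h1 i (by rw [hJ]; trivial)
    refine phase3 typ S c x (fun i => (h1' i).2.1) ∅ ∅ hwin T N (fun i => (h1' i).1)
      (fun v hv => absurd hv (Set.notMem_empty v)) (fun v hv => absurd hv (Set.notMem_empty v))
      (fun v _ _ e he => (h1' (typ v)).2.2 (v, e) rfl he)
  | succ m ih =>
    intro J x T N hm hJne h1 h2 h3
    have hne : (Jᶜ).Nonempty := by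
      rw [← Set.ncard_pos (Set.toFinite _)]; omega
    obtain ⟨i, hi⟩ := hne
    obtain ⟨v, hv⟩ := hsurj i
    refine win_search (BigF typ S) {w | w.1 c = (v, false)} T _ N rfl ?_ ?_
    · intro y hyA hyT hyN N' hN1 hN2 hyN'
      have hyc : y.1 c = (v, false) := hyA
      have hyi : typ (y.1 c).1 = i := by rw [hyc]; exact hv
      have hN2' : ∀ w ∈ N', w ∈ N ∨ w.1 c = (v, false) := fun w hw => (hN2 hw).imp id (fun h => h.1)
      classical
      refine ih (insert i J) (Function.update x i y) (insert y T) N' ?_ ⟨i, Or.inl rfl⟩ ?_ ?_ ?_
      · have : (insert i J)ᶜ = Jᶜ \ {i} := by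
          ext j; simp only [mem_compl_iff, mem_insert_iff, mem_sdiff, mem_singleton_iff]; tauto
        rw [this, Set.ncard_sdiff_singleton_of_mem hi, hm]; rfl
      · intro j hj
        by_cases hji : j = i
        · subst hji
          rw [Function.update_self]
          refine ⟨Or.inl rfl, hyi, fun u hu hne => ?_⟩
          have hsame := setAt_same typ y c u (hu.trans hyi.symm)
          constructor
          · rintro (h | h)
            · apply hne; rw [← hsame, h]
            · apply hi
              have := h2 _ h
              rwa [hsame, hu] at this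
          · intro h
            rcases hN2' _ h with h | h
            · apply hyN
              apply h3 (setAt typ y c u) y
              · rw [hsame, hu]; exact hi
              · rw [hsame, hu]; exact hyi
              · intro d hd; exact (setAt_ne typ y c u d hd).symm
              · exact h
            · apply hne; rw [← hsame, h, hyc]
        · rw [Function.update_of_ne hji]
          have hjJ : j ∈ J := hj.resolve_left hji
          obtain ⟨g1, g2, g3⟩ := h1 j hjJ
          refine ⟨Or.inr g1, g2, fun u hu hne => ?_⟩
          obtain ⟨g4, g5⟩ := g3 u hu hne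
          have hsame := setAt_same typ (x j) c u (hu.trans g2.symm)
          constructor
          · rintro (h | h)
            · apply hji
              rw [← hu, ← hsame, h]; exact hyi
            · exact g4 h
          · intro h
            rcases hN2' _ h with h | h
            · exact g5 h
            · apply hji
              rw [← hu, ← hsame, h]; exact hv
      · rintro w (h | h)
        · rw [h, hyi]; exact Or.inl rfl
        · exact Or.inr (h2 w h)
      · intro w w' hw hww' hag hwN'
        rcases hN2' _ hwN' with h | h
        · exact hN1 (h3 w w' (fun h => hw (Or.inr h)) hww' hag h)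
        · exfalso; apply hw; rw [h]; exact Or.inl hv
    · -- no present word with this letter
      set N1 := N ∪ ({w : Word typ | w.1 c = (v, false)} \ T) with hN1
      have hall : ∀ w : Word typ, w.1 c = (v, false) → w ∈ N1 := by
        intro w hw
        refine Or.inr ⟨hw, fun hT => hi ?_⟩
        have := h2 w hT
        rw [hw] at this
        rw [← hv]; exact this
      refine win_search (BigF typ S) {w | typ (w.1 c).1 = i ∧ w.1 c ≠ (v, true)} T _ N1 rfl ?_ ?_
      · intro y hyA hyT hyN N' hN2 hN3 hyN'
        have hyN0 : y ∉ N := fun h => hyN (Or.inl h)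
        have hty : typ ((v, true) : V × Bool).1 = typ (y.1 c).1 := by rw [hyA.1]; exact hv
        have hsame := setAt_same typ y c (v, true) hty
        refine irrel_partner typ S y (setAt typ y c (v, true)) c (Or.inl rfl) ?_ ?_
          (fun d hd => setAt_ne typ y c _ d hd) v true hsame ?_
        · rintro (h | h)
          · apply hyA.2; rw [← hsame, h]
          · apply hi
            have := h2 _ h
            rw [hsame] at this
            rw [← hv]; exact this
        · intro h
          rcases hN3 h with h | h
          · rcases h with h | h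
            · apply hyN0
              apply h3 (setAt typ y c (v, true)) y
              · rw [hsame]; exact fun h => hi (by rw [← hv]; exact h)
              · rw [hsame]; exact hty.symm
              · intro d hd; exact (setAt_ne typ y c _ d hd).symm
              · exact h
            · have := h.1
              rw [mem_ofPred_eq, hsame] at this
              simp at this
          · exact h.1.2 hsame
        · intro w hw
          exact hN2 (hall w (by simpa using hw))
      · obtain ⟨i0, hi0⟩ := hJne
        obtain ⟨g1, g2, g3⟩ := h1 i0 hi0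
        have hne0 : i0 ≠ i := fun h => hi (h ▸ hi0)
        have hu1 : typ ((((x i0).1 c).1, !((x i0).1 c).2) : V × Bool).1 = i0 := g2
        have hu2 : (((x i0).1 c).1, !((x i0).1 c).2) ≠ (x i0).1 c := by
          intro h
          have := congrArg Prod.snd h
          simp at this
        obtain ⟨g4, g5⟩ := g3 _ hu1 hu2
        have hsame := setAt_same typ (x i0) c _ (hu1.trans g2.symm)
        refine irrel_dead typ S hdown hfib (x i0) _ c g1 g4 ?_
          (fun d hd => setAt_ne typ (x i0) c _ d hd) i ?_
        · rintro ((h | h) | h)
          · exact g5 h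
          · apply hne0
            have := h.1
            rw [mem_ofPred_eq, hsame] at this
            rw [← g2, ← hv]
            exact congrArg typ (congrArg Prod.fst this)
          · apply hne0
            have := h.1.1
            rw [hsame] at this
            rw [← g2]; exact this
        · intro v' hv'
          refine ⟨false, fun w hw => ?_⟩
          right
          refine ⟨⟨by rw [hw]; exact hv', by rw [hw]; simp⟩, fun hT => hi ?_⟩
          have := h2 w hT
          rw [hw] at this
          rw [← hv']; exact this

end fin

/-- The reduction theorem. -/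
theorem reduction {V : Type} [Finite V] {k : ℕ} [NeZero k] (typ : V → ZMod k)
    (S : Set V → Prop) (hsurj : Function.Surjective typ)
    (hdown : ∀ A B : Set V, A ⊆ B → S B → S A) (hfib : ∀ i, ¬ S {v | typ v = i})
    (hwin : Win S ∅ ∅) : Win (BigF typ S) ∅ ∅ := by
  have : Finite (Word typ) := by unfold Word; infer_instance
  obtain ⟨v0, hv0⟩ := hsurj 0
  -- all blocks, one after the other
  have main : ∀ (m : ℕ) (B : Set (ZMod k)), (Bᶜ).ncard = m →
      Win (BigF typ S) ∅ {w | blk typ w ∈ B ∧ w.1 (-blk typ w) = (v0, false)} := by
    intro m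
    induction m with
    | zero =>
      intro B hm
      have hB : B = Set.univ := by
        rw [Set.ncard_eq_zero (Set.toFinite _)] at hm
        exact Set.compl_empty_iff.mp hm
      subst hB
      refine win_search (BigF typ S) {w | (w.1 (-blk typ w)).2 = false} ∅ _ _ rfl ?_ ?_
      · intro y hyA _ hyN N' hN1 hN2 hyN'
        have hyt : typ (y.1 (-blk typ y)).1 = 0 := by
          rw [typ_letter typ y (-blk typ y)]; ring
        have hty : typ ((v0, true) : V × Bool).1 = typ (y.1 (-blk typ y)).1 := by
          rw [hyt]; exact hv0
        have hsame := setAt_same typ y (-blk typ y) (v0, true) hty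
        have hblk := blk_setAt typ y (-blk typ y) (v0, true) hty
        have hyA' : (y.1 (-blk typ y)).2 = false := hyA
        refine irrel_partner typ S y (setAt typ y (-blk typ y) (v0, true)) (-blk typ y)
          (Or.inl rfl) ?_ ?_ (fun d hd => setAt_ne typ y _ _ d hd) v0 true hsame ?_
        · rintro (h | h)
          · rw [h] at hsame
            rw [hsame] at hyA'
            simp at hyA'
          · exact h
        · intro h
          rcases hN2 h with h | h
          · have := h.2
            rw [hblk, hsame] at this
            simp at this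
          · have := h.1
            rw [mem_ofPred_eq, hblk, hsame] at this
            simp at this
        · intro w hw
          apply hN1
          have hw' : w.1 (-blk typ y) = (v0, false) := by simpa using hw
          have ht := typ_letter typ w (-blk typ y)
          rw [hw'] at ht
          have hbb : blk typ w = blk typ y := by
            have : (0 : ZMod k) = -blk typ y + blk typ w := by rw [← ht]; exact hv0.symm
            have h2 : blk typ w = blk typ y + (-blk typ y + blk typ w) := by ring
            rw [h2, ← this, add_zero]
          refine ⟨trivial, ?_⟩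
          rw [hbb]; exact hw'
      · -- nothing present: the function is identically false
        set N1 := {w : Word typ | blk typ w ∈ (Set.univ : Set (ZMod k)) ∧
          w.1 (-blk typ w) = (v0, false)} ∪ ({w | (w.1 (-blk typ w)).2 = false} \ ∅) with hN1
        have hfalse : ∀ X : Set (Word typ), Disjoint X N1 → ¬ BigF typ S X := by
          rintro X hX ⟨c, hc⟩
          apply hfib 0
          refine hdown _ _ ?_ hc
          intro v hv
          refine ⟨false, fun w hw hwc => ?_⟩
          apply Set.disjoint_left.mp hX hw
          right
          refine ⟨?_, fun h => h⟩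
          have ht := typ_letter typ w c
          rw [hwc] at ht
          have hv' : typ v = 0 := hv
          have hcb : -blk typ w = c := by
            have : (0 : ZMod k) = c + blk typ w := by rw [← ht]; exact hv'.symm
            have h2 : -blk typ w = -(c + blk typ w) + c := by ring
            rw [h2, ← this]; ring
          rw [mem_ofPred_eq, hcb, hwc]
        classical
        let ch : ZMod k → V := fun i => (hsurj i).choose
        have hch : ∀ i, typ (ch i) = i := fun i => (hsurj i).choose_spec
        let p : ZMod k → V × Bool := Function.update (fun i => (ch i, true)) 0 (v0, true)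
        have hp0 : p 0 = (v0, true) := Function.update_self _ _ _
        have hp : ∀ c, typ (p c).1 = c + typ (p 0).1 := by
          intro c
          rw [hp0, hv0, add_zero]
          by_cases hc : c = 0
          · rw [hc, hp0]; exact hv0
          · have : p c = (ch c, true) := Function.update_of_ne hc _ _
            rw [this]; exact hch c
        let z : Word typ := ⟨p, hp⟩
        have hzblk : blk typ z = 0 := by
          change typ (p 0).1 = 0
          rw [hp0]; exact hv0
        have hzc : z.1 (-blk typ z) = (v0, true) := by
          rw [hzblk, neg_zero]; exact hp0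
        have hzN : z ∉ N1 := by
          rintro (h | h)
          · have := h.2
            rw [hzc] at this; simp at this
          · have := h.1
            rw [mem_ofPred_eq, hzc] at this; simp at this
        refine Win.irrel _ _ z (fun h => h) hzN (fun X _ hX => ?_)
        have h1 : ¬ BigF typ S (insert z X) := by
          apply hfalse
          rw [Set.disjoint_left]
          rintro w (hw | hw)
          · rw [hw]; exact hzN
          · exact Set.disjoint_left.mp hX hw
        have h2 : ¬ BigF typ S (X \ {z}) :=
          hfalse _ (Set.disjoint_of_subset_left sdiff_subset hX)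
        exact ⟨fun h => absurd h h1, fun h => absurd h h2⟩
    | succ m ih =>
      intro B hm
      have hne : (Bᶜ).Nonempty := by
        rw [← Set.ncard_pos (Set.toFinite _)]; omega
      obtain ⟨s, hs⟩ := hne
      set NB := {w : Word typ | blk typ w ∈ B ∧ w.1 (-blk typ w) = (v0, false)} with hNB
      refine win_search (BigF typ S) {w | blk typ w = s ∧ w.1 (-s) = (v0, false)} ∅ _ NB rfl ?_ ?_
      · intro y hyA _ hyN N' hN1 hN2 hyN'
        have hyb : blk typ y = s := hyA.1
        have hyc : y.1 (-s) = (v0, false) := hyA.2
        have hN2' : ∀ w ∈ N', w ∈ NB ∨ (blk typ w = s ∧ w.1 (-s) = (v0, false)) :=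
          fun w hw => (hN2 hw).imp id (fun h => h.1)
        refine phase2 typ S hsurj hdown hfib hwin (-s) _ {0} (fun _ => y) (insert y ∅) N' rfl
          ⟨0, rfl⟩ ?_ ?_ ?_
        · intro i hi
          have hi0 : i = 0 := hi
          subst hi0
          refine ⟨Or.inl rfl, by rw [hyc]; exact hv0, fun u hu hne => ?_⟩
          have hty : typ u.1 = typ (y.1 (-s)).1 := by rw [hu, hyc]; exact hv0.symm
          have hsame := setAt_same typ y (-s) u hty
          have hblk := blk_setAt typ y (-s) u hty
          constructor
          · rintro (h | h)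
            · apply hne; rw [← hsame, h]
            · exact h
          · intro h
            rcases hN2' _ h with h | h
            · have := h.1
              rw [hblk, hyb] at this
              exact hs this
            · apply hne
              rw [← hsame, h.2]; exact hyc.symm
        · rintro w (h | h)
          · rw [h, hyc]; exact hv0
          · exact absurd h (Set.notMem_empty w)
        · intro w w' hw hww' hag hwN'
          have hbs : blk typ w ≠ s := by
            intro h
            apply hw
            rw [typ_letter typ w (-s), h]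
            exact neg_add_cancel s
          have hbb : blk typ w' = blk typ w := by
            rw [typ_letter typ w (-s), typ_letter typ w' (-s)] at hww'
            exact add_left_cancel hww'
          rcases hN2' _ hwN' with h | h
          · apply hN1
            refine ⟨by rw [hbb]; exact h.1, ?_⟩
            rw [hbb, hag _ (fun h' => hbs (neg_injective h'))]
            exact h.2
          · exact absurd h.1 hbs
      · have hcard : ((insert s B)ᶜ).ncard = m := by
          have : (insert s B)ᶜ = Bᶜ \ {s} := by
            ext j; simp only [mem_compl_iff, mem_insert_iff, mem_sdiff, mem_singleton_iff]; tauto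
          rw [this, Set.ncard_sdiff_singleton_of_mem hs, hm]; rfl
        have := ih (insert s B) hcard
        have e : {w : Word typ | blk typ w ∈ insert s B ∧ w.1 (-blk typ w) = (v0, false)} =
            NB ∪ ({w | blk typ w = s ∧ w.1 (-s) = (v0, false)} \ ∅) := by
          ext w
          constructor
          · rintro ⟨h1 | h1, h2⟩
            · right; exact ⟨⟨h1, by rw [← h1]; exact h2⟩, fun h => h⟩
            · left; exact ⟨h1, h2⟩
          · rintro (h | h)
            · exact ⟨Or.inr h.1, h.2⟩
            · exact ⟨Or.inl h.1.1, by rw [h.1.1]; exact h.1.2⟩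
        rw [← e]; exact this
  have h := main _ ∅ rfl
  have e : {w : Word typ | blk typ w ∈ (∅ : Set (ZMod k)) ∧ w.1 (-blk typ w) = (v0, false)} = ∅ := by
    ext w; simp
  rw [e] at h
  exact h

end Pool.Agent.H571R3
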