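import Pool.Agent.H571R3.Defs
import Pool.Agent.H128R2.Evas.Final

set_option autoImplicit false

/-! Exact statements of the tasks (table h571_tasks). Each is to be proved under the same name in
namespace Pool.Agent.H571R3 in its own file Pool/Agent/H571R3/<File>.lean. -/

namespace Pool.Agent.H571R3.Stubs

open Pool.Agent.H571R3

/-- Task RED (Red.lean). -/
theorem reduction {V : Type} [Finite V] {k : ℕ} [NeZero k] (typ : V → ZMod k)
    (S : Set V → Prop) (hsurj : Function.Surjective typ)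
    (hdown : ∀ A B : Set V, A ⊆ B → S B → S A) (hfib : ∀ i, ¬ S {v | typ v = i})
    (hwin : Win S ∅ ∅) : Win (BigF typ S) ∅ ∅ := by
  sorry

/-- Task SYM (Sym.lean). -/
theorem bigF_mono {V : Type} {k : ℕ} (typ : V → ZMod k) (S : Set V → Prop)
    (hdown : ∀ A B : Set V, A ⊆ B → S B → S A) {X Y : Set (Word typ)} (h : X ⊆ Y) :
    BigF typ S X → BigF typ S Y := by
  sorry

theorem bigF_empty {V : Type} {k : ℕ} (typ : V → ZMod k) (S : Set V → Prop)
    (hdown : ∀ A B : Set V, A ⊆ B → S B → S A) (hfib : ∀ i, ¬ S {v | typ v = i}) :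
    ¬ BigF typ S ∅ := by
  sorry

theorem bigF_univ {V : Type} {k : ℕ} [NeZero k] (typ : V → ZMod k) (S : Set V → Prop)
    (hsurj : Function.Surjective typ) (hempty : S ∅) : BigF typ S Set.univ := by
  sorry

theorem bigF_trans {V : Type} {k : ℕ} [NeZero k] (typ : V → ZMod k) (S : Set V → Prop)
    (htr : ∀ u v, typ u = typ v → ∃ g : Equiv.Perm V, g u = v ∧ (∀ x, typ (g x) = typ x) ∧
      ∀ A : Set V, S (g '' A) ↔ S A) (w w' : Word typ) :
    ∃ σ : Equiv.Perm (Word typ), σ w = w' ∧ ∀ X : Set (Word typ),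
      BigF typ S (σ '' X) ↔ BigF typ S X := by
  sorry

/-- Task WT (WinTree.lean). -/
theorem win_tree {W : Type} [Fintype W] (f : Set W → Prop) (h : Win f ∅ ∅) :
    ∃ t : Pool.Agent.H128R2.Evas.DT W,
      (∀ x : W → Bool, (t.eval x = true ↔ f {w | x w = true})) ∧
      t.depth + 1 ≤ Fintype.card W := by
  sorry

/-- Task NW (NepWin.lean). -/
theorem nep_win {P : Type} (c : P → P → Prop) (hsymm : ∀ x y, c x y → c y x)
    (h : NEP c Set.univ) : Win (fun A : Set P => A.Pairwise c) ∅ ∅ := by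
  sorry

/-- Task GL (Glued.lean). -/
theorem nep_glued {n : ℕ} (hn : 0 < n) (K : Set (Finset (Fin n)))
    (hdown : ∀ s ∈ K, ∀ t, t ⊆ s → t ∈ K) (hcoll : Coll Set.univ K) :
    NEP (cc K) Set.univ := by
  sorry

/-- Task ORB (Orb.lean). -/
theorem orbit_types {P : Type} [Finite P] [Nonempty P] (c : P → P → Prop)
    (hfix : ∀ x : P, ∃ g : Equiv.Perm P, (∀ p q, c (g p) (g q) ↔ c p q) ∧ g x ≠ x ∧
      ¬ c (g x) x) :
    ∃ (k : ℕ) (_ : NeZero k) (typ : P → ZMod k), Function.Surjective typ ∧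
      (∀ i, ¬ ({v | typ v = i} : Set P).Pairwise c) ∧
      (∀ u v, typ u = typ v → ∃ g : Equiv.Perm P, g u = v ∧ (∀ x, typ (g x) = typ x) ∧
        ∀ A : Set P, (g '' A).Pairwise c ↔ A.Pairwise c) := by
  sorry

/-- Task CERT (Cert.lean): computation. -/
theorem coll_KK : Coll (Set.univ : Set (Finset (Fin 13))) KK := by
  sorry

/-- Task KSYM (KSym.lean): computation. -/
theorem KK_sym (g : Equiv.Perm (Fin 13)) (hg : g = g3 ∨ g = g5 ∨ g = gsw)
    (s : Finset (Fin 13)) : s.map g.toEmbedding ∈ KK ↔ s ∈ KK := by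
  sorry

theorem KK_nofix (s : Finset (Fin 13)) (hs : s ∈ KK) (hne : s.Nonempty) :
    ∃ g : Equiv.Perm (Fin 13), (g = g3 ∨ g = g5 ∨ g = gsw) ∧ s.map g.toEmbedding ≠ s := by
  sorry

/-- Task AUT (Aut.lean): uses KK_sym, KK_nofix. -/
theorem pp_auto (x : PP KK) : ∃ g : Equiv.Perm (PP KK),
    (∀ p q, cc KK (g p) (g q) ↔ cc KK p q) ∧ g x ≠ x ∧ ¬ cc KK (g x) x := by
  sorry

end Pool.Agent.H571R3.Stubs
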